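import Pool.Agent.Y134.Two.Alt
import Pool.Agent.W522.C.C4

/-!
# Isometries of a quadratic space and discriminants
-/

set_option autoImplicit false

namespace Pool.Agent.Y134.Two

open Polynomial Module

section form
variable {K : Type} [Field K] {W : Type} [AddCommGroup W] [Module K W] [FiniteDimensional K W]

/-- The matrix of the form `(x, y) ↦ B (T x) y`. -/
noncomputable def fmat (B : W →ₗ[K] W →ₗ[K] K) (T : Module.End K W) :
    Matrix (Fin (finrank K W)) (Fin (finrank K W)) K :=
  fun i j => B (T (finBasis K W i)) (finBasis K W j)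

lemma fmat_eq (B : W →ₗ[K] W →ₗ[K] K) (T : Module.End K W) :
    fmat B T = (LinearMap.toMatrix (finBasis K W) (finBasis K W) T).transpose * fmat B 1 := by
  ext i j
  rw [Matrix.mul_apply]
  unfold fmat
  have h1 : T (finBasis K W i) = ∑ k, (LinearMap.toMatrix (finBasis K W) (finBasis K W) T) k i •
      finBasis K W k := by
    have h2 := (finBasis K W).sum_repr (T (finBasis K W i))
    rw [← h2]
    refine Finset.sum_congr rfl fun k _ => ?_
    rw [LinearMap.toMatrix_apply]
  rw [h1, map_sum, LinearMap.sum_apply]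
  refine Finset.sum_congr rfl fun k _ => ?_
  rw [map_smul, LinearMap.smul_apply, smul_eq_mul, Matrix.transpose_apply, Module.End.one_apply]

lemma det_fmat (B : W →ₗ[K] W →ₗ[K] K) (T : Module.End K W) :
    (fmat B T).det = LinearMap.det T * (fmat B 1).det := by
  rw [fmat_eq, Matrix.det_mul, Matrix.det_transpose, LinearMap.det_toMatrix]

lemma det_gram_ne {B : W →ₗ[K] W →ₗ[K] K} (hB : ∀ x, (∀ y, B x y = 0) → x = 0) :
    (fmat B 1).det ≠ 0 := by
  intro h
  obtain ⟨w, hw, hw0⟩ := Matrix.exists_vecMul_eq_zero_iff.2 h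
  apply hw
  have h1 : ∑ i, w i • finBasis K W i = 0 := by
    apply hB
    intro y
    have h2 : B (∑ i, w i • finBasis K W i) = 0 := by
      refine (finBasis K W).ext fun j => ?_
      rw [map_sum, LinearMap.sum_apply, LinearMap.zero_apply]
      have h3 := congrFun hw0 j
      rw [Matrix.vecMul, dotProduct, Pi.zero_apply] at h3
      rw [← h3]
      refine Finset.sum_congr rfl fun i _ => ?_
      rw [map_smul, LinearMap.smul_apply, smul_eq_mul]
      rfl
    rw [h2, LinearMap.zero_apply]
  have h4 := (Fintype.linearIndependent_iff.1 (finBasis K W).linearIndependent) w h1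
  ext i
  exact h4 i

/-- adjoint maps have the same determinant -/
lemma det_adjoint {B : W →ₗ[K] W →ₗ[K] K} (hB : ∀ x, (∀ y, B x y = 0) → x = 0)
    (hs : ∀ x y, B x y = B y x) {S T : Module.End K W} (h : ∀ x y, B (T x) y = B x (S y)) :
    LinearMap.det T = LinearMap.det S := by
  have h1 : fmat B T = (fmat B S).transpose := by
    ext i j
    rw [Matrix.transpose_apply]
    unfold fmat
    rw [h, hs]
  have h2 := congrArg Matrix.det h1
  rw [Matrix.det_transpose, det_fmat, det_fmat B S] at h2
  exact mul_right_cancel₀ (det_gram_ne hB) h2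

omit [FiniteDimensional K W] in
lemma alt_of {B : W →ₗ[K] W →ₗ[K] K} {T : Module.End K W} (h : ∀ x, B (T x) x = 0) (x y : W) :
    B (T x) y = - B (T y) x := by
  have h1 := h (x + y)
  simp only [map_add, LinearMap.add_apply, h, zero_add, add_zero] at h1
  exact eq_neg_of_add_eq_zero_right h1

lemma isSquare_alt {B : W →ₗ[K] W →ₗ[K] K} {T : Module.End K W} (h : ∀ x, B (T x) x = 0) :
    IsSquare (LinearMap.det T * (fmat B 1).det) := by
  rw [← det_fmat]
  exact isSquare_det_of_alt _ _ rfl _ (fun i j => alt_of h _ _) (fun i => h _)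

/-- The determinants of two alternating maps differ by a square. -/
theorem isSquare_two {B : W →ₗ[K] W →ₗ[K] K} (hB : ∀ x, (∀ y, B x y = 0) → x = 0)
    {S T : Module.End K W} (hS : ∀ x, B (S x) x = 0) (hT : ∀ x, B (T x) x = 0) :
    IsSquare (LinearMap.det S * LinearMap.det T) := by
  have hg := det_gram_ne hB
  obtain ⟨a, ha⟩ := isSquare_alt hS
  obtain ⟨b, hb⟩ := isSquare_alt hT
  refine ⟨a * b / (fmat B 1).det, ?_⟩
  field_simp
  calc LinearMap.det S * LinearMap.det T * (fmat B 1).det ^ 2
      = (LinearMap.det S * (fmat B 1).det) * (LinearMap.det T * (fmat B 1).det) := by ring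
    _ = a * a * (b * b) := by rw [ha, hb]
    _ = a ^ 2 * b ^ 2 := by ring

/-- A nonsingular alternating map lives in even dimension. -/
lemma even_of_alt [CharZero K] {B : W →ₗ[K] W →ₗ[K] K} (hB : ∀ x, (∀ y, B x y = 0) → x = 0)
    {T : Module.End K W} (hT : ∀ x, B (T x) x = 0) (h0 : LinearMap.det T ≠ 0) :
    Even (finrank K W) := by
  have h1 : (fmat B T).transpose = - fmat B T := by
    ext i j
    rw [Matrix.transpose_apply, Matrix.neg_apply]
    exact alt_of hT _ _
  have h2 := congrArg Matrix.det h1
  rw [Matrix.det_transpose, Matrix.det_neg, Fintype.card_fin] at h2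
  have h3 : (fmat B T).det ≠ 0 := by
    rw [det_fmat]
    exact mul_ne_zero h0 (det_gram_ne hB)
  by_contra hne
  rw [Nat.not_even_iff_odd] at hne
  rw [hne.neg_one_pow] at h2
  have h4 : (fmat B T).det * 2 = 0 := by linear_combination h2
  rcases mul_eq_zero.1 h4 with h | h
  · exact h3 h
  · exact two_ne_zero h

end form

section isom
variable {K : Type} [Field K] [CharZero K] {W : Type} [AddCommGroup W] [Module K W]
  [FiniteDimensional K W]
  {B : W →ₗ[K] W →ₗ[K] K} (hB : ∀ x, (∀ y, B x y = 0) → x = 0) (hs : ∀ x y, B x y = B y x)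
  {f : Module.End K W} (hf : ∀ x y, B (f x) (f y) = B x y)

omit [CharZero K] in
include hB hf in
lemma exists_inv : ∃ g : Module.End K W, f * g = 1 ∧ g * f = 1 ∧
    ∀ x y, B (f x) y = B x (g y) := by
  have hinj : Function.Injective f := by
    rw [← LinearMap.ker_eq_bot, LinearMap.ker_eq_bot']
    intro x hx
    apply hB
    intro y
    rw [← hf, hx, map_zero, LinearMap.zero_apply]
  let e := LinearEquiv.ofInjectiveEndo f hinj
  have h1 : ∀ x, f (e.symm x) = x := fun x => e.apply_symm_apply x
  have h2 : ∀ x, e.symm (f x) = x := fun x => e.symm_apply_apply x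
  refine ⟨e.symm, ?_, ?_, ?_⟩
  · ext x; exact h1 x
  · ext x; exact h2 x
  · intro x y
    have h3 := hf x (e.symm y)
    rw [h1] at h3
    exact h3

include hB hs in
lemma skew_facts {g : Module.End K W} (h1 : f * g = 1) (h2 : g * f = 1)
    (h3 : ∀ x y, B (f x) y = B x (g y)) :
    (∀ x, B ((f - g) x) x = 0) ∧
      (LinearMap.det (f - 1) ≠ 0 → LinearMap.det (f + 1) ≠ 0 →
        Even (finrank K W) ∧ LinearMap.det f = 1 ∧
        LinearMap.det (f - g) = LinearMap.det (f - 1) * LinearMap.det (f + 1)) := by
  have hdd : LinearMap.det f * LinearMap.det g = 1 := by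
    rw [← map_mul, h1, map_one]
  have hfac : f - g = g * ((f - 1) * (f + 1)) := by
    have h4 : g * (f * f) = f := by rw [← mul_assoc, h2, one_mul]
    calc f - g = g * (f * f) - g := by rw [h4]
      _ = g * ((f - 1) * (f + 1)) := by noncomm_ring
  have hdet : LinearMap.det (f - g)
      = LinearMap.det g * (LinearMap.det (f - 1) * LinearMap.det (f + 1)) := by
    rw [hfac, map_mul, map_mul]
  have halt : ∀ x, B ((f - g) x) x = 0 := by
    intro x
    rw [LinearMap.sub_apply, map_sub, LinearMap.sub_apply, h3 x x, hs (g x) x, sub_self]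
  refine ⟨halt, ?_⟩
  intro hm hp
  have hg0 : LinearMap.det g ≠ 0 := right_ne_zero_of_mul (by rw [hdd]; exact one_ne_zero)
  have hev : Even (finrank K W) :=
    even_of_alt hB halt (by rw [hdet]; exact mul_ne_zero hg0 (mul_ne_zero hm hp))
  have h5 : LinearMap.det (f - 1) = LinearMap.det f * LinearMap.det (f - 1) := by
    have h6 : f - 1 = f * (1 - g) := by rw [mul_sub, mul_one, h1]
    have h7 : LinearMap.det (1 - g) = LinearMap.det (f - 1) := by
      have h8 : LinearMap.det (f - 1) = LinearMap.det (g - 1) := by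
        refine det_adjoint hB hs fun x y => ?_
        rw [LinearMap.sub_apply, LinearMap.sub_apply, map_sub, LinearMap.sub_apply, map_sub, h3]
        rfl
      have h9 : (1 - g : Module.End K W) = (-1 : K) • (g - 1) := by
        rw [neg_one_smul, neg_sub]
      rw [h9, LinearMap.det_smul, hev.neg_one_pow, one_mul, h8]
    conv_lhs => rw [h6, map_mul, h7]
  have hf1 : LinearMap.det f = 1 := by
    have h6 : (LinearMap.det f - 1) * LinearMap.det (f - 1) = 0 := by linear_combination -h5
    rcases mul_eq_zero.1 h6 with h | h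
    · exact sub_eq_zero.1 h
    · exact absurd h hm
  refine ⟨hev, hf1, ?_⟩
  rw [hdet]
  rw [hf1, one_mul] at hdd
  rw [hdd, one_mul]

include hB hs hf in
/-- The functional equation. -/
lemma func_eq (hev : Even (finrank K W)) (hdet : LinearMap.det f = 1) {c : K} (hc : c ≠ 0)
    {t : K} (ht : t ≠ 0) :
    c ^ finrank K W * (c • f).charpoly.eval t
      = t ^ finrank K W * (c • f).charpoly.eval (c ^ 2 / t) := by
  obtain ⟨g, h1, h2, h3⟩ := exists_inv hB hf
  rw [LinearMap.eval_charpoly, LinearMap.eval_charpoly]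
  have h4 : algebraMap K (Module.End K W) t - c • f
      = f * ((-(t / c)) • (algebraMap K (Module.End K W) (c ^ 2 / t) - c • g)) := by
    rw [smul_sub, mul_sub]
    have h5 : f * ((-(t / c)) • algebraMap K (Module.End K W) (c ^ 2 / t)) = -(c • f) := by
      rw [Algebra.algebraMap_eq_smul_one, smul_smul, mul_smul_comm, mul_one, ← neg_smul]
      congr 1
      field_simp
    have h6 : f * ((-(t / c)) • (c • g)) = - algebraMap K (Module.End K W) t := by
      rw [smul_smul, mul_smul_comm, h1, Algebra.algebraMap_eq_smul_one, ← neg_smul]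
      congr 1
      field_simp
    rw [h5, h6]
    abel
  have h7 : LinearMap.det (algebraMap K (Module.End K W) (c ^ 2 / t) - c • f)
      = LinearMap.det (algebraMap K (Module.End K W) (c ^ 2 / t) - c • g) := by
    refine det_adjoint hB hs fun x y => ?_
    rw [LinearMap.sub_apply, LinearMap.sub_apply, map_sub, LinearMap.sub_apply, map_sub,
      LinearMap.smul_apply, LinearMap.smul_apply, map_smul, LinearMap.smul_apply, map_smul, h3,
      Algebra.algebraMap_eq_smul_one, LinearMap.smul_apply, LinearMap.smul_apply, map_smul,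
      map_smul, LinearMap.smul_apply]
    rfl
  rw [h4, map_mul, hdet, one_mul, LinearMap.det_smul, h7, hev.neg_pow, div_pow]
  field_simp

end isom

end Pool.Agent.Y134.Two
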