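import Pool.Agent.Y134.Two.Iso

/-!
# A stable line in a quadratic space
-/

set_option autoImplicit false

namespace Pool.Agent.Y134.Two

open Polynomial Module

section
variable {K : Type} [Field K] [CharZero K] {V : Type} [AddCommGroup V] [Module K V]
  [FiniteDimensional K V]

/-- The eigenvalues of a map with scalar `m`-th power. -/
lemma root_pow {E : Type} [Field E] [Algebra K E] {g : Module.End K V} {m : ℕ} {c : K}
    (hg : g ^ m = c • (1 : Module.End K V)) {x : E}
    (hx : x ∈ (g.charpoly.map (algebraMap K E)).roots) : x ^ m = algebraMap K E c := by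
  obtain ⟨Φ, hΦ⟩ : ∃ Φ : Module.End E (TensorProduct K E V), Φ = g.baseChange E := ⟨_, rfl⟩
  have h1 : Φ.charpoly = g.charpoly.map (algebraMap K E) := by
    rw [hΦ, LinearMap.charpoly_baseChange]
  rw [← h1, mem_roots (LinearMap.charpoly_monic _).ne_zero] at hx
  have h2 : Module.End.HasEigenvalue Φ x := (Module.End.hasEigenvalue_iff_isRoot_charpoly Φ x).2 hx
  obtain ⟨v, hv⟩ := h2.exists_hasEigenvector
  have h3 : (Φ ^ m) v = x ^ m • v := by
    have : ∀ i : ℕ, (Φ ^ i) v = x ^ i • v := by
      intro i
      induction i with
      | zero => simp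
      | succ i ih =>
        rw [pow_succ', Module.End.mul_apply, ih, map_smul, hv.apply_eq_smul, smul_smul, pow_succ]
    exact this m
  have h4 : Φ ^ m = (algebraMap K E c) • (1 : Module.End E (TensorProduct K E V)) := by
    rw [hΦ, ← LinearMap.baseChange_pow, hg]
    ext v
    simp [TensorProduct.smul_tmul', TensorProduct.tmul_smul, Algebra.smul_def]
  rw [h4, LinearMap.smul_apply, Module.End.one_apply] at h3
  exact (smul_left_injective E hv.2 h3).symm

/-- The dimension of a stable subspace on which the `m`-th power is scalar. -/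
lemma finrank_le_card {E : Type} [Field E] [IsAlgClosed E] [DecidableEq E] [Algebra K E]
    {g : Module.End K V} {m : ℕ}
    {c : K} {N : Submodule K V} (hN : N ≤ N.comap g) (hg : ∀ x ∈ N, (g ^ m) x = c • x) :
    finrank K N ≤ (((g.charpoly.map (algebraMap K E)).roots).filter
      fun x => x ^ m = algebraMap K E c).card := by
  have hr : (g.restrict hN) ^ m = c • (1 : Module.End K N) := by
    apply LinearMap.ext
    intro x
    apply Subtype.ext
    have h1 : (((g.restrict hN) ^ m) x : V) = (g ^ m) x := by
      have : ∀ i : ℕ, (((g.restrict hN) ^ i) x : V) = (g ^ i) x := by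
        intro i
        induction i with
        | zero => rfl
        | succ i ih =>
          rw [pow_succ', Module.End.mul_apply, pow_succ', Module.End.mul_apply, ← ih]
          rfl
      exact this m
    rw [h1, hg x x.2]
    rfl
  have h2 := Pool.Agent.W522.C.charpoly_eq_mul g N hN
  have h3 : ((g.restrict hN).charpoly.map (algebraMap K E)).roots
      ≤ (g.charpoly.map (algebraMap K E)).roots := by
    apply Polynomial.roots.le_of_dvd
    · exact ((LinearMap.charpoly_monic g).map _).ne_zero
    · rw [h2, Polynomial.map_mul]
      exact dvd_mul_right _ _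
  have h4 : ((g.restrict hN).charpoly.map (algebraMap K E)).roots
      ≤ (((g.charpoly.map (algebraMap K E)).roots).filter fun x => x ^ m = algebraMap K E c) := by
    rw [Multiset.le_filter]
    exact ⟨h3, fun x hx => root_pow hr hx⟩
  have h5 := Multiset.card_le_card h4
  rw [splits_iff_card_roots.1 (IsAlgClosed.splits _), natDegree_map,
    LinearMap.charpoly_natDegree] at h5
  exact h5

/-- The characteristic polynomial of a map on a line. -/
lemma charpoly_line {L : Type} [AddCommGroup L] [Module K L] [FiniteDimensional K L]
    (hL : finrank K L = 1) {g : Module.End K L} {c : K} (hg : ∀ x, g x = c • x) :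
    g.charpoly = X - C c := by
  apply Polynomial.funext
  intro t
  rw [LinearMap.eval_charpoly]
  have h1 : algebraMap K (Module.End K L) t - g = (t - c) • (1 : Module.End K L) := by
    apply LinearMap.ext
    intro x
    rw [LinearMap.sub_apply, hg, LinearMap.smul_apply, Module.End.one_apply, sub_smul]
    rfl
  rw [h1, LinearMap.det_smul, hL, pow_one, map_one, mul_one]
  simp

variable {b : V →ₗ[K] V →ₗ[K] K} (hb : ∀ x, (∀ y, b x y = 0) → x = 0)

/-- The orthogonal complement of a vector. -/
def perp (b : V →ₗ[K] V →ₗ[K] K) (v : V) : Submodule K V := LinearMap.ker (b v)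

lemma mem_perp {v y : V} : y ∈ perp b v ↔ b v y = 0 := LinearMap.mem_ker

include hb in
lemma finrank_perp {v : V} (hv : v ≠ 0) : finrank K (perp b v) + 1 = finrank K V := by
  have h1 : LinearMap.range (b v) = ⊤ := by
    rw [LinearMap.range_eq_top]
    apply LinearMap.surjective
    intro h
    exact hv (hb v fun y => by rw [h, LinearMap.zero_apply])
  have h2 := LinearMap.finrank_range_add_finrank_ker (b v)
  rw [h1, finrank_top, finrank_self] at h2
  rw [perp]
  omega

variable {f : Module.End K V} (hf : ∀ x y, b (f x) (f y) = b x y)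

include hf in
lemma perp_stable {v : V} {e : K} (he : e ≠ 0) (hv : f v = e • v) (c : K) :
    perp b v ≤ (perp b v).comap (c • f) := by
  intro y hy
  rw [mem_perp] at hy
  rw [Submodule.mem_comap, mem_perp, LinearMap.smul_apply, map_smul]
  have h1 := hf v y
  rw [hv, map_smul, LinearMap.smul_apply, hy, smul_eq_mul] at h1
  rw [(mul_eq_zero.1 h1).resolve_left he, smul_zero]

include hb hf in
/-- The characteristic polynomial on the complement. -/
lemma charpoly_perp {v : V} (hv0 : v ≠ 0) {e : K} (he : e ≠ 0) (hv : f v = e • v) (c : K) :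
    (c • f).charpoly
      = ((c • f).restrict (perp_stable hf he hv c)).charpoly * (X - C (c * e⁻¹)) := by
  rw [Pool.Agent.W522.C.charpoly_eq_mul (c • f) (perp b v) (perp_stable hf he hv c)]
  congr 1
  have h1 : finrank K (V ⧸ perp b v) = 1 := by
    have h2 := Submodule.finrank_quotient_add_finrank (perp b v)
    have h3 := finrank_perp hb hv0
    omega
  refine charpoly_line h1 fun x => ?_
  obtain ⟨x, rfl⟩ := Submodule.mkQ_surjective _ x
  change Submodule.Quotient.mk ((c • f) x) = (c * e⁻¹) • Submodule.Quotient.mk x
  rw [← Submodule.Quotient.mk_smul, Submodule.Quotient.eq, mem_perp, map_sub, map_smul,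
    LinearMap.smul_apply, map_smul, smul_eq_mul, smul_eq_mul]
  have h3 := hf v x
  rw [hv, map_smul, LinearMap.smul_apply, smul_eq_mul] at h3
  rw [← h3]
  field_simp
  ring

include hb hf in
/-- A line with an isotropic vector gives two eigenvalues. -/
lemma two_le_card {E : Type} [Field E] [IsAlgClosed E] [DecidableEq E] [Algebra K E] {v : V}
    (hv0 : v ≠ 0) (hvv : b v v = 0) {m : ℕ} {e : K} (he : e ^ m = 1) (hm : 0 < m)
    (hv : f v = e • v) (c : K) :
    2 ≤ ((((c • f).charpoly.map (algebraMap K E)).roots).filter
      fun x => x ^ m = algebraMap K E (c ^ m)).card := by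
  have he0 : e ≠ 0 := by
    rintro rfl
    rw [zero_pow hm.ne'] at he
    exact zero_ne_one he
  have h1 := charpoly_perp hb hf hv0 he0 hv c
  set S := Submodule.span K {v} with hS
  have hSst : S ≤ S.comap (c • f) := by
    rw [hS, Submodule.span_singleton_le_iff_mem, Submodule.mem_comap, LinearMap.smul_apply, hv]
    exact Submodule.smul_mem _ _ (Submodule.smul_mem _ _ (Submodule.mem_span_singleton_self v))
  have hSW : S ≤ perp b v := by
    rw [hS, Submodule.span_singleton_le_iff_mem, mem_perp]
    exact hvv
  have h2 := Pool.Agent.W522.C.charpoly_dvd_of_le (c • f) S (perp b v) hSst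
    (perp_stable hf he0 hv c) hSW
  have h3 : ((c • f).restrict hSst).charpoly = X - C (c * e) := by
    refine charpoly_line (finrank_span_singleton hv0) ?_
    rintro ⟨x, hx⟩
    obtain ⟨a, rfl⟩ := Submodule.mem_span_singleton.1 hx
    apply Subtype.ext
    change (c • f) (a • v) = (c * e) • (a • v)
    rw [map_smul, LinearMap.smul_apply, hv, smul_smul, smul_smul, smul_smul]
    congr 1
    ring
  rw [h3] at h2
  have h4 : (X - C (c * e)) * (X - C (c * e⁻¹)) ∣ (c • f).charpoly := by
    rw [h1]
    exact mul_dvd_mul_right h2 _
  have h5 := Polynomial.map_dvd (algebraMap K E) h4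
  have h6 : (((X - C (c * e)) * (X - C (c * e⁻¹)) : K[X]).map (algebraMap K E)).roots
      = {algebraMap K E (c * e), algebraMap K E (c * e⁻¹)} := by
    rw [Polynomial.map_mul, Polynomial.map_sub, Polynomial.map_sub, map_X, map_C, map_C,
      roots_mul (mul_ne_zero (X_sub_C_ne_zero _) (X_sub_C_ne_zero _)), roots_X_sub_C,
      roots_X_sub_C]
    rfl
  have h7 : ({algebraMap K E (c * e), algebraMap K E (c * e⁻¹)} : Multiset E)
      ≤ (((c • f).charpoly.map (algebraMap K E)).roots).filter
        fun x => x ^ m = algebraMap K E (c ^ m) := by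
    rw [Multiset.le_filter]
    constructor
    · rw [← h6]
      exact Polynomial.roots.le_of_dvd ((LinearMap.charpoly_monic _).map _).ne_zero h5
    · intro x hx
      simp only [Multiset.insert_eq_cons, Multiset.mem_cons, Multiset.mem_singleton] at hx
      rcases hx with rfl | rfl
      · rw [← map_pow, mul_pow, he, mul_one]
      · rw [← map_pow, mul_pow, inv_pow, he, inv_one, mul_one]
  have h8 := Multiset.card_le_card h7
  simpa using h8

end

end Pool.Agent.Y134.Two
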