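import Pool.Agent.Y134.Two.Main

/-!
# Double coverings of projective space: two places
-/

set_option autoImplicit false

namespace Pool.Agent.Y134.Two

open Polynomial Module Pool.Agent.W528.HA Pool.Agent.W528.HS Pool.Agent.Y134.Cyc

attribute [instance] Place.field Place.fintype

section
variable {K : Type} [Field K] [CharZero K] {V : Type} [AddCommGroup V] [Module K V]
  [FiniteDimensional K V]

/-- The number of eigenvalues. -/
lemma card_filter_le {d : ℕ} {κ : Type} [Field κ] [Fintype κ] (hκ : Odd (Fintype.card κ))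
    (F : MvPolynomial (Fin (2 * d + 1)) κ) {E : Type} [Field E] [CharZero E] [IsAlgClosed E]
    [DecidableEq E] [Algebra K E] (f : Module.End K V)
    (hX : ∀ (L : Type) [Field L] [Fintype L] [Algebra κ L],
      (coverCount F L : K) = ∑ i ∈ Finset.range (2 * d + 1), (Fintype.card L) ^ i
        + (Fintype.card L) ^ d * LinearMap.trace K V (f ^ Module.finrank κ L))
    {B : Multiset E} {P : ℤ[X]}
    (hB : P.map (Int.castRingHom E) = (B.map fun x => 1 - C x * X).prod)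
    (hZ : ∀ (L : Type) [Field L] [Fintype L] [Algebra κ L],
      (branchCount F L : E) = ∑ i ∈ Finset.range (2 * d), (Fintype.card L) ^ i
        - (B.map fun x => x ^ Module.finrank κ L).sum)
    {m : ℕ} (hm : 0 < m)
    (hcyc : ∀ M : ℕ, M ∣ m → ¬ 2 ∣ M → ¬ cyclotomic M (ZMod 2) ∣ P.map (Int.castRingHom (ZMod 2))) :
    ((((((Fintype.card κ : K) ^ d) • f).charpoly.map (algebraMap K E)).roots).filter
      fun x => x ^ m = algebraMap K E (((Fintype.card κ : K) ^ d) ^ m)).card ≤ 1 := by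
  obtain ⟨Φ, hΦ⟩ : ∃ Φ : Module.End E (TensorProduct K E V),
      Φ = (((Fintype.card κ : K) ^ d) • f).baseChange E := ⟨_, rfl⟩
  have h1 := card_le_one F Φ (by
    intro L _ _ _
    rw [hΦ]
    exact trace_eq hκ F f hX L) hκ hB hZ hm hcyc
  have hcb : Φ.charpoly = ((((Fintype.card κ : K) ^ d) • f).charpoly).map (algebraMap K E) := by
    rw [hΦ, LinearMap.charpoly_baseChange]
  rw [← hcb, map_pow, map_pow, map_natCast]
  exact h1

/-- The bound. -/
lemma finrank_fixed_le {d : ℕ} {κ : Type} [Field κ] [Fintype κ] (hκ : Odd (Fintype.card κ))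
    (F : MvPolynomial (Fin (2 * d + 1)) κ) {E : Type} [Field E] [CharZero E] [IsAlgClosed E]
    [Algebra K E] (f : Module.End K V)
    (hX : ∀ (L : Type) [Field L] [Fintype L] [Algebra κ L],
      (coverCount F L : K) = ∑ i ∈ Finset.range (2 * d + 1), (Fintype.card L) ^ i
        + (Fintype.card L) ^ d * LinearMap.trace K V (f ^ Module.finrank κ L))
    {B : Multiset E} {P : ℤ[X]}
    (hB : P.map (Int.castRingHom E) = (B.map fun x => 1 - C x * X).prod)
    (hZ : ∀ (L : Type) [Field L] [Fintype L] [Algebra κ L],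
      (branchCount F L : E) = ∑ i ∈ Finset.range (2 * d), (Fintype.card L) ^ i
        - (B.map fun x => x ^ Module.finrank κ L).sum)
    {m : ℕ} (hm : 0 < m)
    (hcyc : ∀ M : ℕ, M ∣ m → ¬ 2 ∣ M → ¬ cyclotomic M (ZMod 2) ∣ P.map (Int.castRingHom (ZMod 2)))
    (N : Submodule K V) (hN : ∀ x ∈ N, (f ^ m) x = x) : finrank K N ≤ 1 := by
  classical
  set N' : Submodule K V := LinearMap.ker (f ^ m - 1) with hN'
  have hNN : N ≤ N' := fun x hx => by
    rw [hN', LinearMap.mem_ker, LinearMap.sub_apply, hN x hx, Module.End.one_apply, sub_self]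
  have hst : N' ≤ N'.comap (((Fintype.card κ : K) ^ d) • f) := by
    intro x hx
    rw [hN', LinearMap.mem_ker, LinearMap.sub_apply, Module.End.one_apply, sub_eq_zero] at hx
    rw [Submodule.mem_comap, hN', LinearMap.mem_ker, LinearMap.sub_apply, Module.End.one_apply,
      sub_eq_zero, LinearMap.smul_apply, map_smul, ← Module.End.mul_apply, ← pow_succ, pow_succ',
      Module.End.mul_apply, hx]
  have h1 : ∀ x ∈ N', ((((Fintype.card κ : K) ^ d) • f) ^ m) x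
      = (((Fintype.card κ : K) ^ d) ^ m) • x := by
    intro x hx
    rw [hN', LinearMap.mem_ker, LinearMap.sub_apply, Module.End.one_apply, sub_eq_zero] at hx
    rw [_root_.smul_pow, LinearMap.smul_apply, hx]
  have h2 := finrank_le_card (E := E) hst h1
  have h3 := card_filter_le (E := E) hκ F f hX hB hZ hm hcyc
  exact (Submodule.finrank_mono hNN).trans (h2.trans h3)

/-- A stable line is not isotropic. -/
lemma nonisotropic {d : ℕ} {κ : Type} [Field κ] [Fintype κ] (hκ : Odd (Fintype.card κ))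
    (F : MvPolynomial (Fin (2 * d + 1)) κ) {E : Type} [Field E] [CharZero E] [IsAlgClosed E]
    [Algebra K E] (f : Module.End K V)
    (hX : ∀ (L : Type) [Field L] [Fintype L] [Algebra κ L],
      (coverCount F L : K) = ∑ i ∈ Finset.range (2 * d + 1), (Fintype.card L) ^ i
        + (Fintype.card L) ^ d * LinearMap.trace K V (f ^ Module.finrank κ L))
    {B : Multiset E} {P : ℤ[X]}
    (hB : P.map (Int.castRingHom E) = (B.map fun x => 1 - C x * X).prod)
    (hZ : ∀ (L : Type) [Field L] [Fintype L] [Algebra κ L],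
      (branchCount F L : E) = ∑ i ∈ Finset.range (2 * d), (Fintype.card L) ^ i
        - (B.map fun x => x ^ Module.finrank κ L).sum)
    {m : ℕ} (hm : 0 < m)
    (hcyc : ∀ M : ℕ, M ∣ m → ¬ 2 ∣ M → ¬ cyclotomic M (ZMod 2) ∣ P.map (Int.castRingHom (ZMod 2)))
    {b : V →ₗ[K] V →ₗ[K] K} (hb : ∀ x, (∀ y, b x y = 0) → x = 0)
    (hf : ∀ x y, b (f x) (f y) = b x y) {v : V} (hv0 : v ≠ 0) {e : K} (he : e ^ m = 1)
    (hv : f v = e • v) : b v v ≠ 0 := by
  classical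
  intro hvv
  have h1 := two_le_card (E := E) hb hf hv0 hvv he hm hv ((Fintype.card κ : K) ^ d)
  have h3 := card_filter_le (E := E) hκ F f hX hB hZ hm hcyc
  omega

end

section
variable {K : Type} [Field K] [CharZero K] {V : Type} [AddCommGroup V] [Module K V]
  {G : Type} [Group G] {d : ℕ} {ρ : Representation K G V}

/-- The vectors fixed by a subgroup. -/
def fixed (ρ : Representation K G V) (H : Subgroup G) : Submodule K V where
  carrier := {v | ∀ g ∈ H, ρ g v = v}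
  add_mem' := by
    intro v w hv hw g hg
    rw [map_add, hv g hg, hw g hg]
  zero_mem' := fun g _ => map_zero _
  smul_mem' := by
    intro c v hv g hg
    rw [map_smul, hv g hg]

lemma mem_fixed {H : Subgroup G} {v : V} : v ∈ fixed ρ H ↔ ∀ g ∈ H, ρ g v = v := Iff.rfl

lemma fixed_stable {H : Subgroup G} (hH : H.Normal) (g : G) {v : V} (hv : v ∈ fixed ρ H) :
    ρ g v ∈ fixed ρ H := by
  intro h hh
  have h1 : g⁻¹ * h * g ∈ H := by
    have := hH.conj_mem h hh g⁻¹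
    rwa [inv_inv] at this
  have h2 := hv _ h1
  have h3 : ρ h (ρ g v) = ρ g (ρ (g⁻¹ * h * g) v) := by
    rw [← Module.End.mul_apply, ← Module.End.mul_apply, ← map_mul, ← map_mul]
    congr 2
    group
  rw [h3, h2]

variable [FiniteDimensional K V]

theorem bound (p : Place K d ρ) (H : Subgroup G) {m : ℕ} (hm : 0 < m) (hmH : p.φ ^ m ∈ H)
    (hcyc : ∀ M : ℕ, M ∣ m → ¬ 2 ∣ M →
      ¬ cyclotomic M (ZMod 2) ∣ p.P.map (Int.castRingHom (ZMod 2))) :
    finrank K (fixed ρ H) ≤ 1 := by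
  refine finrank_fixed_le (E := AlgebraicClosure K) p.odd p.F (ρ p.φ) p.cover p.factor p.branch hm
    hcyc (fixed ρ H) ?_
  intro x hx
  rw [← map_pow]
  exact hx _ hmH

lemma odd_of_not_dvd {P : ℤ[X]}
    (h : ¬ cyclotomic 1 (ZMod 2) ∣ P.map (Int.castRingHom (ZMod 2))) : Odd (P.eval 1) := by
  rw [cyclotomic_one, ← C_1, dvd_iff_isRoot, IsRoot.def] at h
  have h1 := eval_intCast_map (Int.castRingHom (ZMod 2)) P 1
  rw [Int.cast_one] at h1
  rw [h1, eq_intCast, ZMod.intCast_zmod_eq_zero_iff_dvd] at h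
  rw [← Int.not_even_iff_odd, even_iff_two_dvd]
  exact h

/-- One place, for a stable line. -/
theorem one_place (p : Place K d ρ) (hP : Odd (p.P.eval 1))
    {b : V →ₗ[K] V →ₗ[K] K} (hb : ∀ x, (∀ y, b x y = 0) → x = 0)
    (hs : ∀ x y, b x y = b y x) (hG : ∀ g x y, b (ρ g x) (ρ g y) = b x y)
    {v : V} (hvv : b v v ≠ 0) {e : K} (hv : ρ p.φ v = e • v) :
    ∃ (R : ℤ[X]) (ε : ℤ), (ε = 1 ∨ ε = -1) ∧
      ((X - C (ε * (Fintype.card p.κ : ℤ) ^ d)) * R).map (Int.castRingHom K)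
        = (((Fintype.card p.κ : K) ^ d) • ρ p.φ).charpoly ∧
      (-1) ^ (finrank K V / 2) * (R.eval ((Fintype.card p.κ : ℤ) ^ d)
        * R.eval (-((Fintype.card p.κ : ℤ) ^ d))) ≡ 1 + 4 * arf (finrank K V / 2) p.P [ZMOD 8] ∧
      ∃ (c : K) (T : Module.End K (perp b v)), (∀ x, rform b (perp b v) (T x) x = 0) ∧
        ((R.eval ((Fintype.card p.κ : ℤ) ^ d) * R.eval (-((Fintype.card p.κ : ℤ) ^ d)) : ℤ) : K)
          = c ^ 2 * LinearMap.det T := by
  obtain ⟨A, hmon, hdeg, hA, hA2⟩ := exists_int (E := AlgebraicClosure K) p.odd p.F (ρ p.φ) p.cover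
    p.factor p.branch
  have hv0 : v ≠ 0 := by
    rintro rfl
    exact hvv (by simp)
  have he0 : e ≠ 0 := by
    rintro rfl
    have h1 := hG p.φ v v
    rw [hv, zero_smul, map_zero] at h1
    exact hvv h1.symm
  have hfW : perp b v ≤ (perp b v).comap (ρ p.φ) := by
    intro y hy
    rw [mem_perp] at hy
    rw [Submodule.mem_comap, mem_perp]
    have h1 := hG p.φ v y
    rw [hv, map_smul, LinearMap.smul_apply, hy, smul_eq_mul] at h1
    exact (mul_eq_zero.1 h1).resolve_left he0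
  have hcast : (((Fintype.card p.κ) ^ d : ℕ) : K) = (Fintype.card p.κ : K) ^ d := by push_cast; rfl
  have hcast' : (((Fintype.card p.κ) ^ d : ℕ) : ℤ) = (Fintype.card p.κ : ℤ) ^ d := by
    push_cast; rfl
  obtain ⟨R, ε, hε, hR, hev, hmod, T, hT, hdet⟩ := place_facts (Q := (Fintype.card p.κ) ^ d)
    (p.odd.pow) hmon hdeg (by rw [hcast]; exact hA) hA2 hP hb hs (hG p.φ) hvv hv hfW
  have hfr := finrank_perp hb hv0
  have hdiv : finrank K (perp b v) / 2 = finrank K V / 2 := by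
    obtain ⟨r, hr⟩ := hev
    omega
  rw [hdiv, hcast'] at hmod
  rw [hcast'] at hR hdet
  refine ⟨R, ε, hε, ?_, hmod, _, T, hT, hdet⟩
  rw [← hR, hA]

/-- The product over two places. -/
theorem two_places (p₁ p₂ : Place K d ρ) {b : V →ₗ[K] V →ₗ[K] K}
    (hb : ∀ x, (∀ y, b x y = 0) → x = 0)
    (hs : ∀ x y, b x y = b y x) (hG : ∀ g x y, b (ρ g x) (ρ g y) = b x y)
    {H : Subgroup G} (hH : H.Normal) {m : ℕ} (hm : 0 < m) (hmH : p₁.φ ^ m ∈ H)
    (hcyc : ∀ M : ℕ, M ∣ m → ¬ 2 ∣ M →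
      ¬ cyclotomic M (ZMod 2) ∣ p₁.P.map (Int.castRingHom (ZMod 2)))
    (h₂ : Odd (p₂.P.eval 1)) (hne : fixed ρ H ≠ ⊥) :
    ∃ (R₁ R₂ : ℤ[X]) (ε₁ ε₂ : ℤ), (ε₁ = 1 ∨ ε₁ = -1) ∧ (ε₂ = 1 ∨ ε₂ = -1) ∧
      ((X - C (ε₁ * (Fintype.card p₁.κ : ℤ) ^ d)) * R₁).map (Int.castRingHom K)
        = (((Fintype.card p₁.κ : K) ^ d) • ρ p₁.φ).charpoly ∧
      ((X - C (ε₂ * (Fintype.card p₂.κ : ℤ) ^ d)) * R₂).map (Int.castRingHom K)
        = (((Fintype.card p₂.κ : K) ^ d) • ρ p₂.φ).charpoly ∧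
      IsSquare (((R₁.eval ((Fintype.card p₁.κ : ℤ) ^ d) * R₁.eval (-((Fintype.card p₁.κ : ℤ) ^ d)))
        * (R₂.eval ((Fintype.card p₂.κ : ℤ) ^ d) * R₂.eval (-((Fintype.card p₂.κ : ℤ) ^ d))) : ℤ) :
          K) ∧
      (R₁.eval ((Fintype.card p₁.κ : ℤ) ^ d) * R₁.eval (-((Fintype.card p₁.κ : ℤ) ^ d)))
        * (R₂.eval ((Fintype.card p₂.κ : ℤ) ^ d) * R₂.eval (-((Fintype.card p₂.κ : ℤ) ^ d)))
        ≡ 1 + 4 * (arf (finrank K V / 2) p₁.P + arf (finrank K V / 2) p₂.P) [ZMOD 8] := by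
  obtain ⟨v, hvN, hv0⟩ := (Submodule.ne_bot_iff _).1 hne
  have hdim := bound p₁ H hm hmH hcyc
  have hline : ∀ w ∈ fixed ρ H, ∃ c : K, w = c • v := by
    intro w hw
    have h1 : (⟨v, hvN⟩ : fixed ρ H) ≠ 0 := fun h => hv0 (congrArg Subtype.val h)
    have h2 : finrank K (fixed ρ H) = 1 := by
      refine le_antisymm hdim ?_
      have : Nontrivial (fixed ρ H) := ⟨⟨_, 0, h1⟩⟩
      exact Module.finrank_pos
    obtain ⟨c, hc⟩ := (finrank_eq_one_iff_of_nonzero' _ h1).1 h2 ⟨w, hw⟩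
    exact ⟨c, (congrArg Subtype.val hc).symm⟩
  obtain ⟨e₁, he₁⟩ := hline _ (fixed_stable hH p₁.φ hvN)
  obtain ⟨e₂, he₂⟩ := hline _ (fixed_stable hH p₂.φ hvN)
  have hem : e₁ ^ m = 1 := by
    have h1 : ∀ i : ℕ, (ρ p₁.φ ^ i) v = e₁ ^ i • v := by
      intro i
      induction i with
      | zero => simp
      | succ i ih => rw [pow_succ', Module.End.mul_apply, ih, map_smul, he₁, smul_smul, pow_succ]
    have h2 := h1 m
    rw [← map_pow, hvN _ hmH] at h2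
    have h3 : (1 : K) • v = e₁ ^ m • v := by rw [one_smul]; exact h2
    exact (smul_left_injective K hv0 h3).symm
  have hvv := nonisotropic (E := AlgebraicClosure K) p₁.odd p₁.F (ρ p₁.φ) p₁.cover p₁.factor
    p₁.branch hm hcyc hb (hG p₁.φ) hv0 hem he₁
  have h₁ : Odd (p₁.P.eval 1) := odd_of_not_dvd (hcyc 1 (one_dvd m) (by norm_num))
  obtain ⟨R₁, ε₁, hε₁, hR₁, hm₁, c₁, T₁, hT₁, hd₁⟩ := one_place p₁ h₁ hb hs hG hvv he₁
  obtain ⟨R₂, ε₂, hε₂, hR₂, hm₂, c₂, T₂, hT₂, hd₂⟩ := one_place p₂ h₂ hb hs hG hvv he₂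
  refine ⟨R₁, R₂, ε₁, ε₂, hε₁, hε₂, hR₁, hR₂, ?_, ?_⟩
  · obtain ⟨t, ht⟩ := isSquare_two (fun x hx => perp_nondeg hb hs hvv x hx) hT₁ hT₂
    refine ⟨c₁ * c₂ * t, ?_⟩
    rw [Int.cast_mul, hd₁, hd₂]
    linear_combination (c₁ ^ 2 * c₂ ^ 2) * ht
  · have h7 : ((-1 : ℤ) ^ (finrank K V / 2)) * (-1) ^ (finrank K V / 2) = 1 := by
      rw [← mul_pow, neg_one_mul, neg_neg, one_pow]
    have h8 := hm₁.mul hm₂
    obtain ⟨w, hw⟩ := Int.modEq_iff_dvd.1 h8
    rw [Int.modEq_iff_dvd]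
    refine ⟨w - 2 * (arf (finrank K V / 2) p₁.P * arf (finrank K V / 2) p₂.P), ?_⟩
    linear_combination hw + (R₁.eval ((Fintype.card p₁.κ : ℤ) ^ d) *
      R₁.eval (-((Fintype.card p₁.κ : ℤ) ^ d)) * (R₂.eval ((Fintype.card p₂.κ : ℤ) ^ d)
        * R₂.eval (-((Fintype.card p₂.κ : ℤ) ^ d)))) * h7

/-- The conclusion at two places: the characteristic polynomials of `q ^ d φ` at the two places are
`(X - ε q ^ d) R` with `ε = 1` or `ε = -1` and `R` with integral coefficients, the product `δ` of the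
values of the two polynomials `R` at `q ^ d` and at `- q ^ d` is a square in `K`, and it is congruent
modulo `8` to `1` or to `5` according to the parity of the sum of the numbers `arf`. -/
def SquareCondition (p₁ p₂ : Place K d ρ) : Prop :=
  ∃ (R₁ R₂ : ℤ[X]) (ε₁ ε₂ δ : ℤ), (ε₁ = 1 ∨ ε₁ = -1) ∧ (ε₂ = 1 ∨ ε₂ = -1) ∧
    ((X - C (ε₁ * (Fintype.card p₁.κ : ℤ) ^ d)) * R₁).map (Int.castRingHom K)
      = (((Fintype.card p₁.κ : K) ^ d) • ρ p₁.φ).charpoly ∧
    ((X - C (ε₂ * (Fintype.card p₂.κ : ℤ) ^ d)) * R₂).map (Int.castRingHom K)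
      = (((Fintype.card p₂.κ : K) ^ d) • ρ p₂.φ).charpoly ∧
    δ = (R₁.eval ((Fintype.card p₁.κ : ℤ) ^ d) * R₁.eval (-((Fintype.card p₁.κ : ℤ) ^ d)))
      * (R₂.eval ((Fintype.card p₂.κ : ℤ) ^ d) * R₂.eval (-((Fintype.card p₂.κ : ℤ) ^ d))) ∧
    IsSquare (δ : K) ∧
    δ ≡ 1 + 4 * (arf (finrank K V / 2) p₁.P + arf (finrank K V / 2) p₂.P) [ZMOD 8]

theorem square_condition (p₁ p₂ : Place K d ρ) {b : V →ₗ[K] V →ₗ[K] K}
    (hb : ∀ x, (∀ y, b x y = 0) → x = 0)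
    (hs : ∀ x y, b x y = b y x) (hG : ∀ g x y, b (ρ g x) (ρ g y) = b x y)
    {H : Subgroup G} (hH : H.Normal) {m : ℕ} (hm : 0 < m) (hmH : p₁.φ ^ m ∈ H)
    (hcyc : ∀ M : ℕ, M ∣ m → ¬ 2 ∣ M →
      ¬ cyclotomic M (ZMod 2) ∣ p₁.P.map (Int.castRingHom (ZMod 2)))
    (h₂ : Odd (p₂.P.eval 1)) (hne : fixed ρ H ≠ ⊥) : SquareCondition p₁ p₂ := by
  obtain ⟨R₁, R₂, ε₁, ε₂, h1, h2, h3, h4, h5, h6⟩ := two_places p₁ p₂ hb hs hG hH hm hmH hcyc h₂ hne
  exact ⟨R₁, R₂, ε₁, ε₂, _, h1, h2, h3, h4, rfl, h5, h6⟩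

end

section
variable {V : Type} [AddCommGroup V] [Module ℚ_[2] V] [FiniteDimensional ℚ_[2] V]
  {G : Type} [Group G] {d : ℕ} {ρ : Representation ℚ_[2] G V}

theorem not_square_condition (p₁ p₂ : Place ℚ_[2] d ρ)
    (hodd : Odd (arf (finrank ℚ_[2] V / 2) p₁.P + arf (finrank ℚ_[2] V / 2) p₂.P)) :
    ¬ SquareCondition p₁ p₂ := by
  rintro ⟨R₁, R₂, ε₁, ε₂, δ, -, -, -, -, -, h1, h2⟩
  refine not_isSquare ?_ h1
  obtain ⟨u, hu⟩ := hodd
  rw [hu] at h2
  have h3 := Int.modEq_iff_dvd.1 h2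
  omega

end

end Pool.Agent.Y134.Two
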