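import Mathlib

/-!
# The determinant of an alternating matrix is a square
-/

set_option autoImplicit false

namespace Pool.Agent.Y134.Two

open Matrix

theorem isSquare_det_of_alt {K : Type} [Field K] : ∀ (k : ℕ) (n : Type) [Fintype n] [DecidableEq n]
    (_ : Fintype.card n = k) (M : Matrix n n K) (_ : ∀ i j, M i j = - M j i) (_ : ∀ i, M i i = 0),
    IsSquare M.det := by
  intro k
  induction k using Nat.strong_induction_on with
  | _ k ih =>
  intro n _ _ hn M hM hd
  by_cases h0 : M = 0
  · subst h0
    by_cases hne : Nonempty n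
    · rw [Matrix.det_zero]; exact IsSquare.zero
    · have : IsEmpty n := not_nonempty_iff.1 hne
      rw [det_isEmpty]; exact IsSquare.one
  · obtain ⟨i, j, hij⟩ : ∃ i j, M i j ≠ 0 := by
      by_contra h
      push Not at h
      exact h0 (by ext i j; exact h i j)
    have hne : i ≠ j := by
      rintro rfl
      exact hij (hd i)
    set a := M i j with ha
    let f : Fin 2 → n := ![i, j]
    have hf : Function.Injective f := by
      intro x y hxy
      fin_cases x <;> fin_cases y
      · rfl
      · exact absurd hxy hne
      · exact absurd hxy hne.symm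
      · rfl
    classical
    let s : Set n := Set.range f
    let e : Fin 2 ⊕ (sᶜ : Set n) ≃ n :=
      (Equiv.sumCongr (Equiv.ofInjective f hf) (Equiv.refl _)).trans (Equiv.Set.sumCompl s)
    have e1 : ∀ x, e (Sum.inl x) = f x := by
      intro x
      rfl
    set M' := M.submatrix e e with hM'
    have h1 : M'.det = M.det := det_submatrix_equiv_self e M
    set A := M'.toBlocks₁₁ with hA
    set B := M'.toBlocks₁₂ with hB
    set C := M'.toBlocks₂₁ with hC
    set D := M'.toBlocks₂₂ with hD
    have hM'' : ∀ x y, M' x y = - M' y x := fun x y => hM _ _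
    have hd' : ∀ x, M' x x = 0 := fun x => hd _
    have A00 : A 0 0 = 0 := hd' _
    have A11 : A 1 1 = 0 := hd' _
    have A01 : A 0 1 = a := rfl
    have A10 : A 1 0 = -a := hM'' _ _
    let A' : Matrix (Fin 2) (Fin 2) K := !![0, -a⁻¹; a⁻¹, 0]
    have hA1 : A' * A = 1 := by
      ext x y
      fin_cases x <;> fin_cases y <;>
        simp [A', Matrix.mul_apply, Fin.sum_univ_two, A00, A11, A01, A10, hij]
    have hA2 : A * A' = 1 := by
      ext x y
      fin_cases x <;> fin_cases y <;>
        simp [A', Matrix.mul_apply, Fin.sum_univ_two, A00, A11, A01, A10, hij]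
    let _ : Invertible A := ⟨A', hA1, hA2⟩
    have h2 : M'.det = A.det * (D - C * A' * B).det := by
      conv_lhs => rw [← fromBlocks_toBlocks M']
      exact det_fromBlocks₁₁ A B C D
    have h3 : A.det = a * a := by
      rw [det_fin_two, A00, A11, A01, A10]
      ring
    have hcard : Fintype.card ((sᶜ : Set n)) < k := by
      have h4 := Fintype.card_congr e
      rw [Fintype.card_sum, Fintype.card_fin] at h4
      omega
    have hCB : ∀ x y, C x y = - B y x := fun x y => hM'' _ _
    have hDD : ∀ x y, D x y = - D y x := fun x y => hM'' _ _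
    have hD0 : ∀ x, D x x = 0 := fun x => hd' _
    have hN : ∀ x y, (C * A' * B) x y = B 0 x * (a⁻¹ * B 1 y) - B 1 x * (a⁻¹ * B 0 y) := by
      intro x y
      simp only [Matrix.mul_apply, Fin.sum_univ_two, hCB, A']
      simp
      ring
    obtain ⟨r, hr⟩ := ih _ hcard (sᶜ : Set n) rfl (D - C * A' * B) (by
      intro x y
      rw [Matrix.sub_apply, Matrix.sub_apply, hN, hN, hDD x y]
      ring) (by
      intro x
      rw [Matrix.sub_apply, hN, hD0]
      ring)
    rw [← h1, h2, h3, hr]
    exact ⟨a * r, by ring⟩

end Pool.Agent.Y134.Two
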