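import Pool.Agent.Y134.Two.Place

/-!
# At most one eigenvalue of Frobenius is a root of unity
-/

set_option autoImplicit false

namespace Pool.Agent.Y134.Two

open Polynomial Finset Pool.Agent.W528.HA Pool.Agent.W528.HS Pool.Agent.Y134.Cyc

section
variable {E : Type} [Field E] [CharZero E] [IsAlgClosed E] {d : ℕ} {κ : Type} [Field κ] [Fintype κ]
  (F : MvPolynomial (Fin (2 * d + 1)) κ) {B : Multiset E}

/-- The bound for the multiplicities. -/
theorem key {W : Type} [AddCommGroup W] [Module E W]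
    [FiniteDimensional E W] (Φ : Module.End E W)
    (hΦ : ∀ (L : Type) [Field L] [Fintype L] [Algebra κ L],
      LinearMap.trace E W (Φ ^ Module.finrank κ L)
        = projSum L E (2 ^ 1) (F.map (algebraMap κ L)) (algebraMap κ L (-1)) (-1))
    (hκ : Odd (Fintype.card κ)) {P : ℤ[X]}
    (hB : P.map (Int.castRingHom E) = (B.map fun x => 1 - C x * X).prod)
    (hZ : ∀ (L : Type) [Field L] [Fintype L] [Algebra κ L],
      (branchCount F L : E) = ∑ i ∈ range (2 * d), (Fintype.card L) ^ i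
        - (B.map fun x => x ^ Module.finrank κ L).sum)
    {M : ℕ} (hM : 0 < M) (hMp : ¬ 2 ∣ M) {ζ : E} (hζ : IsPrimitiveRoot ζ M) (b : ℕ) :
      cyclotomic M (ZMod 2) ^ (∑ η ∈ nthRootsFinset (2 ^ b) (1 : E),
        Module.finrank E (Φ.maxGenEigenspace ((Fintype.card κ : E) ^ d * (ζ * η)))) ∣
        (1 - X) * P.map (Int.castRingHom (ZMod 2)) := by
  have hz := neg_one_prim hκ
  have hμ : IsPrimitiveRoot (-1 : E) (2 ^ 1) := by
    rw [pow_one]
    exact IsPrimitiveRoot.neg_one 0 (by norm_num)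
  have hPP := map_lin' (q := Fintype.card κ) (d := d) hB
  refine mult_cyc Nat.prime_two le_rfl κ hz F hμ _ 1 (coeff_zero_of hPP) (by simp)
    (((Fintype.card κ ^ (2 * d) : ℕ) : E) ::ₘ B) 0 hPP (by simp)
    (fun L _ _ _ => open_eq' F hZ L) Φ (fun L _ _ _ => hΦ L) _ ?_ hM hMp hζ b
  rw [map_lin hκ]
  simp

lemma coprime_cyc {M : ℕ} (hM2 : ¬ 2 ∣ M) (hM1 : M ≠ 1) :
    IsCoprime (cyclotomic M (ZMod 2)) (1 - X : (ZMod 2)[X]) := by
  have h5 : Irreducible (X - C 1 : (ZMod 2)[X]) := irreducible_X_sub_C 1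
  have h6 : ¬ (X - C 1 : (ZMod 2)[X]) ∣ cyclotomic M (ZMod 2) := by
    rw [dvd_iff_isRoot]
    intro h7
    have hne : NeZero (M : ZMod 2) := ⟨by rwa [Ne, CharP.cast_eq_zero_iff (ZMod 2) 2 M]⟩
    rw [isRoot_cyclotomic_iff] at h7
    exact hM1 (h7.unique IsPrimitiveRoot.one)
  have h8 := ((h5.coprime_iff_not_dvd).2 h6).symm
  have h9 : (1 - X : (ZMod 2)[X]) = -(X - C 1) := by rw [C_1, neg_sub]
  rw [h9]
  exact h8.neg_right

lemma mem_two_roots {y : E} {m b m' c : ℕ} (hmb : m = 2 ^ b * m') (hm' : ¬ 2 ∣ m')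
    (hy : y ^ m = 1) (hy' : y ^ 2 ^ c = 1) : y ^ 2 ^ b = 1 := by
  have h6 : orderOf y ∣ m := orderOf_dvd_of_pow_eq_one hy
  have h7 : orderOf y ∣ 2 ^ c := orderOf_dvd_of_pow_eq_one hy'
  obtain ⟨e, -, he⟩ := (Nat.dvd_prime_pow Nat.prime_two).1 h7
  rw [he, hmb] at h6
  have h8 : 2 ^ e ∣ 2 ^ b := by
    refine (Nat.Coprime.dvd_of_dvd_mul_right ?_ h6)
    exact Nat.Coprime.pow_left e ((Nat.Prime.coprime_iff_not_dvd Nat.prime_two).2 hm')
  rw [← he] at h8
  exact orderOf_dvd_iff_pow_eq_one.1 h8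

/-- A purely algebraic form of the bound. -/
theorem card_le_one_aux [DecidableEq E] (A : Multiset E) {Q : E} (hQ : Q ≠ 0) {H : (ZMod 2)[X]}
    (hkey : ∀ (M : ℕ) (ζ : E) (b : ℕ), 0 < M → ¬ 2 ∣ M → IsPrimitiveRoot ζ M →
      cyclotomic M (ZMod 2) ^ (∑ η ∈ nthRootsFinset (2 ^ b) (1 : E), A.count (Q * (ζ * η))) ∣
        (1 - X) * H) {m : ℕ} (hm : 0 < m)
    (hcyc : ∀ M : ℕ, M ∣ m → ¬ 2 ∣ M → ¬ cyclotomic M (ZMod 2) ∣ H) :
    (A.filter fun x => x ^ m = Q ^ m).card ≤ 1 := by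
  have hP1 : ¬ (X - 1 : (ZMod 2)[X]) ∣ H := by
    have := hcyc 1 (one_dvd m) (by norm_num)
    rwa [cyclotomic_one] at this
  -- no eigenvalues with an odd part
  have h2 : ∀ (M : ℕ), M ∣ m → ¬ 2 ∣ M → M ≠ 1 → ∀ (ζ η : E) (b : ℕ), IsPrimitiveRoot ζ M →
      η ^ 2 ^ b = 1 → Q * (ζ * η) ∉ A := by
    intro M hMm hM2 hM1 ζ η b hζ hη hmem
    have hM : 0 < M := Nat.pos_of_dvd_of_pos hMm hm
    have h3 : cyclotomic M (ZMod 2) ∣ (1 - X) * H := by
      refine dvd_trans (dvd_pow_self _ ?_) (hkey M ζ b hM hM2 hζ)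
      intro h0
      rw [Finset.sum_eq_zero_iff] at h0
      have h4 := h0 η ((mem_nthRootsFinset (by positivity) 1).2 hη)
      exact (Multiset.count_ne_zero.2 hmem) h4
    exact hcyc M hMm hM2 ((coprime_cyc hM2 hM1).dvd_of_dvd_mul_left h3)
  -- the exponent of 2
  obtain ⟨b, m', hm', hmb⟩ := Nat.exists_eq_pow_mul_and_not_dvd hm.ne' 2 (by norm_num)
  have h3 : (A.filter fun x => x ^ m = Q ^ m)
      ≤ (A.filter fun x => x ∈ (nthRootsFinset (2 ^ b) (1 : E)).image fun η => Q * η) := by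
    rw [Multiset.le_filter]
    refine ⟨Multiset.filter_le _ _, ?_⟩
    intro x hx
    rw [Multiset.mem_filter] at hx
    have h5 : (x / Q) ^ m = 1 := by rw [div_pow, hx.2, div_self (pow_ne_zero m hQ)]
    obtain ⟨M, c, ζ, η, hMm, hM2, hζ, hη, hy⟩ := decomp Nat.prime_two hm h5
    have hx' : x = Q * (ζ * η) := by rw [← hy]; field_simp
    have hM1 : M = 1 := by
      by_contra hne
      exact h2 M hMm hM2 hne ζ η c hζ hη (by rw [← hx']; exact hx.1)
    subst hM1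
    rw [IsPrimitiveRoot.one_right_iff] at hζ
    rw [hζ, one_mul] at hx' hy
    rw [Finset.mem_image]
    refine ⟨η, ?_, hx'.symm⟩
    rw [mem_nthRootsFinset (by positivity)]
    rw [hy] at h5
    exact mem_two_roots hmb hm' h5 hη
  refine (Multiset.card_le_card h3).trans ?_
  have h4 : (A.filter fun x => x ∈ (nthRootsFinset (2 ^ b) (1 : E)).image fun η => Q * η).card
      = ∑ η ∈ nthRootsFinset (2 ^ b) (1 : E), A.count (Q * (1 * η)) := by
    rw [← Multiset.sum_count_eq_card (s := (nthRootsFinset (2 ^ b) (1 : E)).image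
      fun η => Q * η) (fun x hx => (Multiset.mem_filter.1 hx).2),
      sum_image (fun x _ y _ h => mul_left_cancel₀ hQ h)]
    refine sum_congr rfl fun η hη => ?_
    rw [Multiset.count_filter_of_pos (Finset.mem_image_of_mem _ hη), one_mul]
  rw [h4]
  by_contra hlt
  rw [not_le] at hlt
  have h5 := hkey 1 1 b one_pos (by norm_num) IsPrimitiveRoot.one
  rw [cyclotomic_one] at h5
  have h6 : (X - 1 : (ZMod 2)[X]) ^ 2 ∣ (1 - X) * H := (pow_dvd_pow _ hlt).trans h5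
  rw [show (1 - X : (ZMod 2)[X]) = -(X - 1) by ring, neg_mul, dvd_neg, sq] at h6
  have h7 : (X - 1 : (ZMod 2)[X]) ≠ 0 := by
    rw [← C_1]
    exact X_sub_C_ne_zero 1
  exact hP1 ((mul_dvd_mul_iff_left h7).1 h6)

/-- At most one eigenvalue is `q ^ d` times a root of unity of order dividing `m`. -/
theorem card_le_one [DecidableEq E] {W : Type} [AddCommGroup W] [Module E W]
    [FiniteDimensional E W] (Φ : Module.End E W)
    (hΦ : ∀ (L : Type) [Field L] [Fintype L] [Algebra κ L],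
      LinearMap.trace E W (Φ ^ Module.finrank κ L)
        = projSum L E (2 ^ 1) (F.map (algebraMap κ L)) (algebraMap κ L (-1)) (-1))
    (hκ : Odd (Fintype.card κ)) {P : ℤ[X]}
    (hB : P.map (Int.castRingHom E) = (B.map fun x => 1 - C x * X).prod)
    (hZ : ∀ (L : Type) [Field L] [Fintype L] [Algebra κ L],
      (branchCount F L : E) = ∑ i ∈ range (2 * d), (Fintype.card L) ^ i
        - (B.map fun x => x ^ Module.finrank κ L).sum)
    {m : ℕ} (hm : 0 < m)
    (hcyc : ∀ M : ℕ, M ∣ m → ¬ 2 ∣ M → ¬ cyclotomic M (ZMod 2) ∣ P.map (Int.castRingHom (ZMod 2))) :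
    (Φ.charpoly.roots.filter fun x => x ^ m = ((Fintype.card κ : E) ^ d) ^ m).card ≤ 1 := by
  refine card_le_one_aux Φ.charpoly.roots
    (pow_ne_zero d (Nat.cast_ne_zero.2 Fintype.card_ne_zero)) ?_ hm hcyc
  intro M ζ b hM hMp hζ
  have h1 := key F Φ hΦ hκ hB hZ hM hMp hζ b
  have h2 : ∑ η ∈ nthRootsFinset (2 ^ b) (1 : E),
        Module.finrank E (Φ.maxGenEigenspace ((Fintype.card κ : E) ^ d * (ζ * η)))
      = ∑ η ∈ nthRootsFinset (2 ^ b) (1 : E),
        Φ.charpoly.roots.count ((Fintype.card κ : E) ^ d * (ζ * η)) := by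
    refine sum_congr rfl fun η _ => ?_
    rw [LinearMap.finrank_maxGenEigenspace_eq, count_roots]
  rwa [h2] at h1

end

end Pool.Agent.Y134.Two
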