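import Pool.Agent.Y134.Two.Mod
import Pool.Agent.Y134.Cyc.Tate

/-!
# The characteristic polynomial of Frobenius on a double covering modulo 2
-/

set_option autoImplicit false

namespace Pool.Agent.Y134.Two

open Polynomial Finset Pool.Agent.W528.HA Pool.Agent.W528.HS Pool.Agent.Y134.Cyc

lemma neg_one_prim {κ : Type} [Field κ] [Fintype κ] (hκ : Odd (Fintype.card κ)) :
    IsPrimitiveRoot (-1 : κ) (2 ^ 1) := by
  rw [pow_one]
  apply IsPrimitiveRoot.neg_one (ringChar κ)
  intro h
  have h1 := (FiniteField.even_card_iff_char_two (F := κ)).1 h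
  exact absurd hκ (Nat.not_odd_iff_even.2 (Nat.even_iff.2 h1))

lemma branch_eq {κ : Type} [Field κ] {n : ℕ} (F : MvPolynomial (Fin (n + 1)) κ) (L : Type)
    [Field L] [Fintype L] [Algebra κ L] :
    projOpen L (F.map (algebraMap κ L)) + branchCount F L
      = ∑ i ∈ range (n + 1), Fintype.card L ^ i := by
  rw [← Pool.Agent.W273.HS.PJ.main L n (F.map (algebraMap κ L))]
  congr 1
  unfold branchCount projZero
  have h : {v : Fin (n + 1) → L | IsPoint v ∧ MvPolynomial.aeval v F = 0} =
      {v : Fin (n + 1) → L | IsNorm v ∧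
        MvPolynomial.eval v (MvPolynomial.map (algebraMap κ L) F) = 0} := by
    ext v
    rw [Set.mem_ofPred_eq, Set.mem_ofPred_eq, eval_map_eq]
    exact Iff.rfl
  rw [h]

lemma cover_eq {κ : Type} [Field κ] [Fintype κ] (hκ : Odd (Fintype.card κ)) {n : ℕ}
    (F : MvPolynomial (Fin (n + 1)) κ) (R : Type) [Field R] [CharZero R] (L : Type)
    [Field L] [Fintype L] [Algebra κ L] :
    (coverCount F L : R) = ((∑ i ∈ range (n + 1), Fintype.card L ^ i : ℕ) : R)
      + projSum L R (2 ^ 1) (F.map (algebraMap κ L)) (algebraMap κ L (-1)) (-1) := by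
  classical
  have hz : IsPrimitiveRoot (algebraMap κ L (-1)) (2 ^ 1) :=
    (neg_one_prim hκ).map_of_injective (algebraMap κ L).injective
  have hμ : IsPrimitiveRoot (-1 : R) (2 ^ 1) := by
    rw [pow_one]
    exact IsPrimitiveRoot.neg_one 0 (by norm_num)
  have h1 : ∀ u : L, ((Set.ncard {y : L | y ^ 2 = u} : ℕ) : R)
      = 1 + kv (2 ^ 1) (algebraMap κ L (-1)) (-1 : R) (u ^ ((Fintype.card L - 1) / (2 ^ 1))) := by
    intro u
    have h2 := Pool.Agent.W924.HC.PR.main L (2 ^ 1) 2 1 (algebraMap κ L (-1)) (by norm_num) hz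
      (by norm_num) one_pos R (-1) hμ u
    rw [h2, show Ico 1 2 = {1} from rfl, sum_singleton, one_mul, pow_one u]
  unfold coverCount
  rw [ncard_prod, ← Pool.Agent.W273.HS.PJ.card_norm L (n + 1)]
  have h3 : ∀ v : Fin (n + 1) → L, {b : L | (v, b) ∈
      ({v : (Fin (n + 1) → L) × L | IsPoint v.1 ∧ v.2 ^ 2 = MvPolynomial.aeval v.1 F} : Set _)}
      = {y : L | IsPoint v ∧ y ^ 2 = MvPolynomial.aeval v F} := fun v => rfl
  simp only [h3]
  have h4 : ∀ v : Fin (n + 1) → L, Set.ncard {y : L | IsPoint v ∧ y ^ 2 = MvPolynomial.aeval v F}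
      = if IsNorm v then Set.ncard {y : L | y ^ 2 = MvPolynomial.aeval v F} else 0 := by
    intro v
    by_cases hv : IsNorm v
    · rw [if_pos hv]
      congr 1
      ext y
      exact and_iff_right hv
    · rw [if_neg hv]
      have : {y : L | IsPoint v ∧ y ^ 2 = MvPolynomial.aeval v F} = ∅ := by
        ext y
        simp only [Set.mem_ofPred_eq, Set.mem_empty_iff_false, iff_false]
        exact fun h => hv h.1
      rw [this, Set.ncard_empty]
  simp only [h4]
  have h5 : Set.ncard {v : Fin (n + 1) → L | IsNorm v}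
      = ∑ v : Fin (n + 1) → L, if IsNorm v then 1 else 0 := by
    rw [Set.ncard_eq_toFinset_card', sum_boole, Nat.cast_id]
    congr 1
    ext v
    simp
  rw [h5]
  unfold projSum
  rw [Nat.cast_sum, Nat.cast_sum, ← sum_add_distrib]
  refine sum_congr rfl fun v _ => ?_
  by_cases hv : IsNorm v
  · rw [if_pos hv, if_pos hv, if_pos hv, h1, eval_map_eq, Nat.cast_one]
  · rw [if_neg hv, if_neg hv, if_neg hv, Nat.cast_zero, add_zero]

end Pool.Agent.Y134.Two
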