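import Mathlib

/-!
# Double coverings of projective space: definitions
-/

set_option autoImplicit false

namespace Pool.Agent.Y134.Two

open Polynomial Finset

/-- The vector `v` is the normalized representative of a point of projective space: the last
nonzero coordinate is `1`. -/
def IsPoint {L : Type} [Field L] {k : ℕ} (v : Fin k → L) : Prop :=
  ∃ i, v i = 1 ∧ ∀ j, i < j → v j = 0

/-- The number of points over `L` of the branch locus `F = 0` in projective space. -/
noncomputable def branchCount {κ : Type} [Field κ] {k : ℕ} (F : MvPolynomial (Fin k) κ) (L : Type)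
    [Field L] [Algebra κ L] : ℕ :=
  Set.ncard {v : Fin k → L | IsPoint v ∧ MvPolynomial.aeval v F = 0}

/-- The number of points over `L` of the double covering `w ^ 2 = F(v)` of projective space. -/
noncomputable def coverCount {κ : Type} [Field κ] {k : ℕ} (F : MvPolynomial (Fin k) κ) (L : Type)
    [Field L] [Algebra κ L] : ℕ :=
  Set.ncard {v : (Fin k → L) × L | IsPoint v.1 ∧ v.2 ^ 2 = MvPolynomial.aeval v.1 F}

/-- The sum of the coefficients of `P` in the degrees `g - 1, g - 3, g - 5, ...`. -/
noncomputable def arf (g : ℕ) (P : ℤ[X]) : ℤ :=
  ∑ i ∈ (range g).filter (fun i => Odd (g - i)), P.coeff i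

/-- A place of good reduction of the double covering `X : w ^ 2 = F` of the projective space of
dimension `2 d`, where `ρ` is the Galois representation on the part `V` of `H ^ (2 d) (X)(d)` that
is not invariant under the covering involution: the residue field `κ` with an odd number of
elements, the equation `F` of the branch locus `Z` over `κ`, a Frobenius element `φ`, and the
numerator `P = ∏_{x ∈ B} (1 - x T)` of the zeta function of `Z`. -/
structure Place (K : Type) [Field K] (d : ℕ) {G : Type} [Group G] {V : Type} [AddCommGroup V]
    [Module K V] (ρ : Representation K G V) where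
  /-- the residue field -/
  κ : Type
  [field : Field κ]
  [fintype : Fintype κ]
  odd : Odd (Fintype.card κ)
  /-- the equation of the branch locus -/
  F : MvPolynomial (Fin (2 * d + 1)) κ
  /-- the Frobenius element -/
  φ : G
  /-- the numerator of the zeta function of the branch locus -/
  P : ℤ[X]
  /-- its inverse roots -/
  B : Multiset (AlgebraicClosure K)
  factor : P.map (Int.castRingHom (AlgebraicClosure K)) = (B.map fun x => 1 - C x * X).prod
  branch : ∀ (L : Type) [Field L] [Fintype L] [Algebra κ L],
    (branchCount F L : AlgebraicClosure K) = ∑ i ∈ range (2 * d), (Fintype.card L) ^ i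
      - (B.map fun x => x ^ Module.finrank κ L).sum
  cover : ∀ (L : Type) [Field L] [Fintype L] [Algebra κ L],
    (coverCount F L : K) = ∑ i ∈ range (2 * d + 1), (Fintype.card L) ^ i
      + (Fintype.card L) ^ d * LinearMap.trace K V (ρ φ ^ Module.finrank κ L)

end Pool.Agent.Y134.Two
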