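import Pool.Agent.Y134.Two.Card
import Pool.Agent.Y134.Two.Line

/-!
# Double coverings of projective space: one place
-/

set_option autoImplicit false

namespace Pool.Agent.Y134.Two

open Polynomial Module Pool.Agent.W528.HA Pool.Agent.W528.HS Pool.Agent.Y134.Cyc

lemma arf_congr {g : ℕ} {P R : ℤ[X]} (h : ∀ j < g, P.coeff j ≡ R.coeff j [ZMOD 2]) :
    arf g P ≡ arf g R [ZMOD 2] := by
  unfold arf
  rw [Int.modEq_iff_dvd, ← Finset.sum_sub_distrib]
  refine Finset.dvd_sum fun i hi => ?_
  exact Int.modEq_iff_dvd.1 (h i (Finset.mem_range.1 (Finset.mem_filter.1 hi).1))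

lemma eval_modEq (R : ℤ[X]) {x y : ℤ} (h : x ≡ y [ZMOD 2]) : R.eval x ≡ R.eval y [ZMOD 2] := by
  rw [Int.modEq_iff_dvd] at h ⊢
  exact h.trans (R.sub_dvd_eval_sub y x)

lemma eval_one_reflect (R : ℤ[X]) {n : ℕ} (hn : R.natDegree ≤ n) :
    (R.reflect n).eval 1 = R.eval 1 := by
  have h1 : (R.reflect n).natDegree ≤ n := by
    rw [natDegree_le_iff_coeff_eq_zero]
    intro N hN
    rw [coeff_reflect, revAt_eq_self_of_lt hN]
    exact coeff_eq_zero_of_natDegree_lt (lt_of_le_of_lt hn hN)
  rw [eval_eq_sum_range' (Nat.lt_succ_of_le h1), eval_eq_sum_range' (Nat.lt_succ_of_le hn),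
    ← Finset.sum_range_reflect]
  refine Finset.sum_congr rfl fun i hi => ?_
  have := Finset.mem_range.1 hi
  rw [one_pow, mul_one, one_pow, mul_one, coeff_reflect, revAt_le (by omega)]
  congr 1
  omega

section
variable {K : Type} [Field K] [CharZero K] {V : Type} [AddCommGroup V] [Module K V]
  [FiniteDimensional K V]

/-- The integral characteristic polynomial. -/
theorem exists_int {d : ℕ} {κ : Type} [Field κ] [Fintype κ] (hκ : Odd (Fintype.card κ))
    (F : MvPolynomial (Fin (2 * d + 1)) κ) {E : Type} [Field E] [CharZero E] [IsAlgClosed E]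
    [Algebra K E] (f : Module.End K V)
    (hX : ∀ (L : Type) [Field L] [Fintype L] [Algebra κ L],
      (coverCount F L : K) = ∑ i ∈ Finset.range (2 * d + 1), (Fintype.card L) ^ i
        + (Fintype.card L) ^ d * LinearMap.trace K V (f ^ Module.finrank κ L))
    {B : Multiset E} {P : ℤ[X]}
    (hB : P.map (Int.castRingHom E) = (B.map fun x => 1 - C x * X).prod)
    (hZ : ∀ (L : Type) [Field L] [Fintype L] [Algebra κ L],
      (branchCount F L : E) = ∑ i ∈ Finset.range (2 * d), (Fintype.card L) ^ i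
        - (B.map fun x => x ^ Module.finrank κ L).sum) :
    ∃ A : ℤ[X], A.Monic ∧ A.natDegree = finrank K V ∧
      A.map (Int.castRingHom K) = (((Fintype.card κ : K) ^ d) • f).charpoly ∧
      (A.reflect (finrank K V)).map (Int.castRingHom (ZMod 2))
        = (1 - X) * P.map (Int.castRingHom (ZMod 2)) := by
  obtain ⟨Φ, hΦ⟩ : ∃ Φ : Module.End E (TensorProduct K E V),
      Φ = (((Fintype.card κ : K) ^ d) • f).baseChange E := ⟨_, rfl⟩
  obtain ⟨A, hA, hA2⟩ := exists_int_aux F Φ (by
    intro L _ _ _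
    rw [hΦ]
    exact trace_eq hκ F f hX L) hκ hB hZ
  have hcb : Φ.charpoly = ((((Fintype.card κ : K) ^ d) • f).charpoly).map (algebraMap K E) := by
    rw [hΦ, LinearMap.charpoly_baseChange]
  have hAK : A.map (Int.castRingHom K) = (((Fintype.card κ : K) ^ d) • f).charpoly := by
    apply Polynomial.map_injective (algebraMap K E) (algebraMap K E).injective
    rw [← hcb, ← hA, Polynomial.map_map]
    congr 1
    exact RingHom.ext_int _ _
  have hinj : Function.Injective (Int.castRingHom K) := (Int.castRingHom K).injective_int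
  have hmon : A.Monic := by
    refine (Function.Injective.monic_map_iff hinj).2 ?_
    rw [hAK]
    exact LinearMap.charpoly_monic _
  have hdeg : A.natDegree = finrank K V := by
    rw [← natDegree_map_eq_of_injective hinj, hAK, LinearMap.charpoly_natDegree]
  have hcard : Φ.charpoly.roots.card = finrank K V := by
    rw [splits_iff_card_roots.1 (IsAlgClosed.splits Φ.charpoly), ← hA,
      natDegree_map_eq_of_injective (Int.castRingHom E).injective_int, hdeg]
  rw [hcard] at hA2
  exact ⟨A, hmon, hdeg, hAK, hA2⟩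

lemma eq_sign {e : K} (he : e * e = 1) : ∃ ε : ℤ, (ε = 1 ∨ ε = -1) ∧ e = (ε : K) := by
  rcases mul_self_eq_one_iff.1 he with h | h
  · exact ⟨1, Or.inl rfl, by rw [h, Int.cast_one]⟩
  · exact ⟨-1, Or.inr rfl, by rw [h, Int.cast_neg, Int.cast_one]⟩

variable {b : V →ₗ[K] V →ₗ[K] K} (hb : ∀ x, (∀ y, b x y = 0) → x = 0)
  (hs : ∀ x y, b x y = b y x) {f : Module.End K V} (hf : ∀ x y, b (f x) (f y) = b x y)

include hb hs in
lemma perp_nondeg {v : V} (hvv : b v v ≠ 0) (x : perp b v) (hx : ∀ y : perp b v, b x y = 0) :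
    x = 0 := by
  apply Subtype.ext
  apply hb
  intro y
  have h1 : y - (b v y / b v v) • v ∈ perp b v := by
    rw [mem_perp, map_sub, map_smul, smul_eq_mul, div_mul_cancel₀ _ hvv, sub_self]
  have h2 := hx ⟨_, h1⟩
  have h3 : b x v = 0 := by
    rw [hs]
    exact mem_perp.1 x.2
  change b x (y - (b v y / b v v) • v) = 0 at h2
  rwa [map_sub, map_smul, h3, smul_zero, sub_zero] at h2

lemma one_sub_eq {W : Type} [AddCommGroup W] [Module K W] (u : Module.End K W) :
    1 - u = (-1 : K) • (u - 1) := by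
  refine LinearMap.ext fun x => ?_
  rw [LinearMap.sub_apply, LinearMap.smul_apply, LinearMap.sub_apply, neg_smul, one_smul, neg_sub]

/-- The restriction of the form. -/
noncomputable def rform (b : V →ₗ[K] V →ₗ[K] K) (W : Submodule K V) : W →ₗ[K] W →ₗ[K] K :=
  (b.domRestrict₁₂ W W)

lemma rform_apply (W : Submodule K V) (x y : W) : rform b W x y = b x y := rfl

/-- The facts at a place, for a nonisotropic stable line. -/
theorem place_facts {Q : ℕ} (hQ : Odd Q) {A P : ℤ[X]} (hmon : A.Monic)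
    (hdeg : A.natDegree = finrank K V)
    (hA : A.map (Int.castRingHom K) = ((Q : K) • f).charpoly)
    (hA2 : (A.reflect (finrank K V)).map (Int.castRingHom (ZMod 2))
        = (1 - X) * P.map (Int.castRingHom (ZMod 2)))
    (hP : Odd (P.eval 1)) (hb : ∀ x, (∀ y, b x y = 0) → x = 0)
    (hs : ∀ x y, b x y = b y x) (hf : ∀ x y, b (f x) (f y) = b x y)
    {v : V} (hvv : b v v ≠ 0) {e : K} (hv : f v = e • v) (hfW : perp b v ≤ (perp b v).comap f) :
    ∃ (R : ℤ[X]) (ε : ℤ), (ε = 1 ∨ ε = -1) ∧ A = (X - C (ε * Q)) * R ∧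
      Even (finrank K (perp b v)) ∧
      (-1) ^ (finrank K (perp b v) / 2) * (R.eval (Q : ℤ) * R.eval (-(Q : ℤ)))
        ≡ 1 + 4 * arf (finrank K (perp b v) / 2) P [ZMOD 8] ∧
      ∃ T : Module.End K (perp b v), (∀ x, rform b (perp b v) (T x) x = 0) ∧
        ((R.eval (Q : ℤ) * R.eval (-(Q : ℤ)) : ℤ) : K)
          = ((Q : K) ^ finrank K (perp b v)) ^ 2 * LinearMap.det T := by
  have hv0 : v ≠ 0 := by
    rintro rfl
    exact hvv (by simp)
  have hQ0 : (Q : K) ≠ 0 := by
    intro h
    have : Q = 0 := by exact_mod_cast h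
    rw [this] at hQ
    exact absurd hQ (by decide)
  have hee : e * e = 1 := by
    have h1 := hf v v
    rw [hv] at h1
    simp only [map_smul, LinearMap.smul_apply, smul_eq_mul, ← mul_assoc] at h1
    exact mul_right_cancel₀ hvv (h1.trans (one_mul _).symm)
  have he0 : e ≠ 0 := left_ne_zero_of_mul (by rw [hee]; exact one_ne_zero)
  have hei : e⁻¹ = e := by
    rw [inv_eq_iff_eq_inv, eq_inv_of_mul_eq_one_left hee]
    rw [inv_inv, ← eq_inv_of_mul_eq_one_left hee]
  obtain ⟨ε, hε, heε⟩ := eq_sign hee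
  set W := perp b v with hW
  set m := finrank K W with hm
  have hmV : m + 1 = finrank K V := finrank_perp hb hv0
  let fW : Module.End K W := f.restrict hfW
  have hcp : ((Q : K) • f).charpoly = ((Q : K) • fW).charpoly * (X - C ((ε * Q : ℤ) : K)) := by
    have h1 := charpoly_perp hb hf hv0 he0 hv (Q : K)
    have h2 : (Q : K) * e⁻¹ = ((ε * Q : ℤ) : K) := by
      rw [hei, heε]
      push_cast
      rw [mul_comm]
    rw [h2] at h1
    exact h1
  -- the factor
  have hinj : Function.Injective (Int.castRingHom K) := (Int.castRingHom K).injective_int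
  have hroot : A.IsRoot (ε * Q) := by
    have h1 : (A.map (Int.castRingHom K)).eval ((ε * Q : ℤ) : K) = 0 := by
      rw [hA, hcp, eval_mul, eval_sub, eval_X, eval_C, sub_self, mul_zero]
    have h2 := eval_intCast_map (Int.castRingHom K) A (ε * Q)
    rw [h2] at h1
    exact hinj (h1.trans (map_zero _).symm)
  obtain ⟨R, hR⟩ := dvd_iff_isRoot.2 hroot
  have hRK : R.map (Int.castRingHom K) = ((Q : K) • fW).charpoly := by
    have h1 : (X - C ((ε * Q : ℤ) : K)) * R.map (Int.castRingHom K)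
        = (X - C ((ε * Q : ℤ) : K)) * ((Q : K) • fW).charpoly := by
      rw [mul_comm _ (((Q : K) • fW).charpoly), ← hcp, ← hA, hR, Polynomial.map_mul,
        Polynomial.map_sub, map_X, map_C]
      rfl
    exact mul_left_cancel₀ (X_sub_C_ne_zero _) h1
  have hRdeg : R.natDegree = m := by
    rw [← natDegree_map_eq_of_injective hinj, hRK, LinearMap.charpoly_natDegree]
  have hεQ : ((ε * Q : ℤ) : ZMod 2) = 1 := by
    rw [Int.cast_mul, odd_cast hQ, mul_one]
    rcases hε with rfl | rfl
    · simp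
    · decide
  have hR2 : (R.reflect m).map (Int.castRingHom (ZMod 2)) = P.map (Int.castRingHom (ZMod 2)) := by
    have h1 : A.reflect (finrank K V) = (1 - C (ε * Q : ℤ) * X) * R.reflect m := by
      rw [← hmV, hR, add_comm m 1, reflect_mul (X - C (ε * Q : ℤ)) R
        (natDegree_X_sub_C_le _) hRdeg.le]
      congr 1
      rw [reflect_sub, reflect_C, reflect_one_X, pow_one]
    rw [h1, Polynomial.map_mul, Polynomial.map_sub, Polynomial.map_mul, Polynomial.map_one, map_X,
      map_C, eq_intCast, hεQ, C_1, one_mul] at hA2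
    have h2 : (1 - X : (ZMod 2)[X]) ≠ 0 := by
      rw [← neg_ne_zero, neg_sub, ← C_1]
      exact X_sub_C_ne_zero 1
    exact mul_left_cancel₀ h2 hA2
  -- parity of the values
  have hR1 : Odd (R.eval 1) := by
    have h1 := congrArg (eval 1) hR2
    have h2 : ∀ S : ℤ[X], (S.map (Int.castRingHom (ZMod 2))).eval 1 = ((S.eval 1 : ℤ) : ZMod 2) := by
      intro S
      have := eval_intCast_map (Int.castRingHom (ZMod 2)) S 1
      rw [Int.cast_one] at this
      exact this
    rw [h2, h2, eval_one_reflect R hRdeg.le] at h1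
    have h3 := (ZMod.intCast_eq_intCast_iff_dvd_sub _ _ 2).1 h1
    obtain ⟨w, hw⟩ := h3
    obtain ⟨u, hu⟩ := hP
    rw [hu] at hw
    exact ⟨u - w, by push_cast at hw; linarith⟩
  have hQz : Odd (Q : ℤ) := by exact_mod_cast hQ
  have hoddQ : Odd (R.eval (Q : ℤ)) := by
    have h1 : (Q : ℤ) ≡ 1 [ZMOD 2] := by
      obtain ⟨w, hw⟩ := hQz
      rw [hw, Int.modEq_iff_dvd]
      exact ⟨-w, by ring⟩
    have h2 := eval_modEq R h1
    rw [Int.modEq_iff_dvd] at h2
    obtain ⟨w, hw⟩ := h2
    obtain ⟨u, hu⟩ := hR1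
    exact ⟨u - w, by linarith⟩
  have hoddQ' : Odd (R.eval (-(Q : ℤ))) := by
    have h1 : -(Q : ℤ) ≡ 1 [ZMOD 2] := by
      obtain ⟨w, hw⟩ := hQz
      rw [hw, Int.modEq_iff_dvd]
      exact ⟨w + 1, by ring⟩
    have h2 := eval_modEq R h1
    rw [Int.modEq_iff_dvd] at h2
    obtain ⟨w, hw⟩ := h2
    obtain ⟨u, hu⟩ := hR1
    exact ⟨u - w, by linarith⟩
  -- the values as determinants
  have hval : ∀ t : ℤ, ((R.eval t : ℤ) : K)
      = LinearMap.det (algebraMap K (Module.End K W) (t : K) - (Q : K) • fW) := by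
    intro t
    rw [← LinearMap.eval_charpoly, ← hRK]
    exact (eval_intCast_map (Int.castRingHom K) R t).symm
  have hvalQ : ((R.eval (Q : ℤ) : ℤ) : K) = (Q : K) ^ m * LinearMap.det (1 - fW) := by
    rw [hval, ← LinearMap.det_smul]
    congr 1
    rw [smul_sub, Algebra.algebraMap_eq_smul_one, Int.cast_natCast]
  have hvalQ' : ((R.eval (-(Q : ℤ)) : ℤ) : K)
      = (Q : K) ^ m * ((-1) ^ m * LinearMap.det (fW + 1)) := by
    rw [hval, ← LinearMap.det_smul, ← LinearMap.det_smul]
    congr 1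
    refine LinearMap.ext fun x => ?_
    rw [LinearMap.sub_apply, Module.algebraMap_end_apply, LinearMap.smul_apply,
      LinearMap.smul_apply, LinearMap.smul_apply, LinearMap.add_apply, Module.End.one_apply]
    push_cast
    rw [neg_smul, neg_smul, one_smul, smul_neg, smul_add]
    abel
  have hB : ∀ x, (∀ y, rform b W x y = 0) → x = 0 := fun x hx => perp_nondeg hb hs hvv x hx
  have hsW : ∀ x y, rform b W x y = rform b W y x := fun x y => hs x y
  have hfW' : ∀ x y, rform b W (fW x) (fW y) = rform b W x y := fun x y => hf x y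
  obtain ⟨g, h1, h2, h3⟩ := exists_inv hB hfW'
  obtain ⟨halt, hfacts⟩ := skew_facts hB hsW h1 h2 h3
  have hd1 : LinearMap.det (fW - 1) ≠ 0 := by
    intro h
    have h4 : LinearMap.det (1 - fW) = 0 := by
      rw [one_sub_eq fW,
        LinearMap.det_smul, h, mul_zero]
    rw [h4, mul_zero] at hvalQ
    have h5 : R.eval (Q : ℤ) = 0 := by exact_mod_cast hvalQ
    rw [h5] at hoddQ
    exact absurd hoddQ (by decide)
  have hd2 : LinearMap.det (fW + 1) ≠ 0 := by
    intro h
    rw [h, mul_zero, mul_zero] at hvalQ'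
    have h5 : R.eval (-(Q : ℤ)) = 0 := by exact_mod_cast hvalQ'
    rw [h5] at hoddQ'
    exact absurd hoddQ' (by decide)
  obtain ⟨hev, hdet, hTdet⟩ := hfacts hd1 hd2
  have hev' : Even m := hev
  obtain ⟨r, hr⟩ : ∃ r, m = 2 * r := by
    obtain ⟨r, hr⟩ := hev'
    exact ⟨r, by omega⟩
  have hdiv : m / 2 = r := by omega
  have hsym : ∀ i ≤ 2 * r, R.coeff i * (Q : ℤ) ^ i = R.coeff (2 * r - i) * (Q : ℤ) ^ (2 * r - i) := by
    intro i hi
    refine coeff_sym (K := K) (by omega) (by exact_mod_cast (Nat.pos_of_ne_zero (by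
      rintro rfl; exact hQ0 (by simp))).ne') ?_ hi
    intro t ht
    rw [hRK, ← hr]
    have := func_eq hB hsW hfW' hev hdet hQ0 ht
    rw [Int.cast_natCast]
    exact this
  have hmod := mod_eight (R := R) (g := r) (by omega) hQz hsym hoddQ
  have harf : arf r R ≡ arf r P [ZMOD 2] := by
    refine arf_congr fun j hj => ?_
    have h4 := congrArg (fun S => S.coeff j) hR2
    simp only [coeff_map, eq_intCast, coeff_reflect] at h4
    rw [revAt_le (by omega), hr] at h4
    have h5 : R.coeff (2 * r - j) ≡ P.coeff j [ZMOD 2] :=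
      (ZMod.intCast_eq_intCast_iff _ _ 2).1 h4
    refine Int.ModEq.trans ?_ h5
    have h6 := hsym j (by omega)
    have h7 : ∀ k : ℕ, (Q : ℤ) ^ k ≡ 1 [ZMOD 2] := by
      intro k
      obtain ⟨w, hw⟩ := hQz.pow (n := k)
      rw [hw, Int.modEq_iff_dvd]
      exact ⟨-w, by ring⟩
    have h8 := (Int.ModEq.refl (R.coeff j) (n := 2)).mul (h7 j)
    have h9 := (Int.ModEq.refl (R.coeff (2 * r - j)) (n := 2)).mul (h7 (2 * r - j))
    rw [mul_one] at h8 h9
    rw [← h6] at h9
    exact h8.symm.trans h9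
  refine ⟨R, ε, hε, hR, hev', ?_, fW - g, halt, ?_⟩
  · rw [hdiv]
    refine hmod.trans ?_
    obtain ⟨w, hw⟩ := Int.modEq_iff_dvd.1 harf
    rw [Int.modEq_iff_dvd]
    exact ⟨w, by linear_combination 4 * hw⟩
  · rw [Int.cast_mul, hvalQ, hvalQ', hTdet, hev'.neg_one_pow, one_mul]
    have h4 : LinearMap.det (1 - fW) = LinearMap.det (fW - 1) := by
      rw [one_sub_eq fW,
        LinearMap.det_smul, hev'.neg_one_pow, one_mul]
    rw [h4]
    ring

end

end Pool.Agent.Y134.Two
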