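import Pool.Agent.Y134.Two.Defs

/-!
# Self-reciprocal integral polynomials modulo 8
-/

set_option autoImplicit false

namespace Pool.Agent.Y134.Two

open Polynomial Finset

lemma coeff_sym {K : Type} [Field K] [CharZero K] {R : ℤ[X]} {m : ℕ} (hR : R.natDegree ≤ m)
    {Q : ℤ} (hQ : Q ≠ 0)
    (h : ∀ t : K, t ≠ 0 → (Q : K) ^ m * (R.map (Int.castRingHom K)).eval t
      = t ^ m * (R.map (Int.castRingHom K)).eval ((Q : K) ^ 2 / t)) {i : ℕ} (hi : i ≤ m) :
    R.coeff i * Q ^ i = R.coeff (m - i) * Q ^ (m - i) := by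
  have hQ' : (Q : K) ≠ 0 := Int.cast_ne_zero.2 hQ
  set S := R.map (Int.castRingHom K) with hS
  have hSd : S.natDegree ≤ m := (natDegree_map_le).trans hR
  have h1 : C ((Q : K) ^ m) * S
      = ∑ j ∈ range (m + 1), C (S.coeff j * (Q : K) ^ (2 * j)) * X ^ (m - j) := by
    apply Polynomial.eq_of_infinite_eval_eq
    refine Set.Infinite.mono (s := {t : K | t ≠ 0}) ?_ (Set.infinite_of_finite_compl ?_)
    · intro t ht
      change eval t _ = eval t _
      rw [eval_mul, eval_C, h t ht, eval_finsetSum,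
        eval_eq_sum_range' (Nat.lt_succ_of_le hSd) ((Q : K) ^ 2 / t), mul_sum]
      refine sum_congr rfl fun j hj => ?_
      rw [eval_mul, eval_C, eval_pow, eval_X]
      have hj' : j ≤ m := Nat.lt_succ_iff.1 (mem_range.1 hj)
      have h2 : t ^ m = t ^ (m - j) * t ^ j := by rw [← pow_add, Nat.sub_add_cancel hj']
      rw [h2, div_pow, ← pow_mul]
      have ht' : t ^ j ≠ 0 := pow_ne_zero j ht
      field_simp
    · have : ({t : K | t ≠ 0}ᶜ : Set K) = {0} := by ext t; simp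
      rw [this]
      exact Set.finite_singleton 0
  have h2 := congrArg (fun P => P.coeff i) h1
  simp only [coeff_C_mul, finsetSum_coeff, coeff_X_pow] at h2
  rw [sum_eq_single (m - i)] at h2
  · rw [if_pos (by omega), mul_one, hS, coeff_map, coeff_map, eq_intCast, eq_intCast] at h2
    have h3 : (((R.coeff i * Q ^ i : ℤ)) : K) * (Q : K) ^ m
        = (((R.coeff (m - i) * Q ^ (m - i) : ℤ)) : K) * (Q : K) ^ m := by
      push_cast
      have h4 : (Q : K) ^ (2 * (m - i)) * (Q : K) ^ i = (Q : K) ^ (m - i) * (Q : K) ^ m := by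
        rw [← pow_add, ← pow_add]
        congr 1
        omega
      linear_combination (Q : K) ^ i * h2 + (R.coeff (m - i) : K) * h4
    exact_mod_cast mul_right_cancel₀ (pow_ne_zero m hQ') h3
  · intro j hj hne
    rw [if_neg, mul_zero]
    have := mem_range.1 hj
    omega
  · intro hn
    exact absurd (mem_range.2 (by omega)) hn

lemma sum_sym (g : ℕ) (u : ℕ → ℤ) (hu : ∀ i ≤ 2 * g, u i = u (2 * g - i)) :
    ∑ i ∈ range (2 * g + 1), u i = u g + 2 * ∑ i ∈ range g, u i := by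
  rw [show 2 * g + 1 = g + (g + 1) by ring, Finset.sum_range_add, Finset.sum_range_succ']
  have h1 : ∑ i ∈ range g, u (g + (i + 1)) = ∑ i ∈ range g, u i := by
    rw [← Finset.sum_range_reflect]
    refine sum_congr rfl fun i hi => ?_
    have := mem_range.1 hi
    rw [hu _ (by omega)]
    congr 1
    omega
  rw [h1, add_zero]
  ring

theorem mod_eight {R : ℤ[X]} {g : ℕ} (hR : R.natDegree ≤ 2 * g) {Q : ℤ} (hQ : Odd Q)
    (hsym : ∀ i ≤ 2 * g, R.coeff i * Q ^ i = R.coeff (2 * g - i) * Q ^ (2 * g - i))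
    (hodd : Odd (R.eval Q)) :
    (-1) ^ g * (R.eval Q * R.eval (-Q)) ≡ 1 + 4 * arf g R [ZMOD 8] := by
  set s : ℕ → ℤ := fun i => R.coeff i * Q ^ i with hs
  set E := ∑ i ∈ (range g).filter (fun i => ¬ Odd (g - i)), s i with hE
  set O := ∑ i ∈ (range g).filter (fun i => Odd (g - i)), s i with hO
  have hEO : ∑ i ∈ range g, s i = O + E := (sum_filter_add_sum_filter_not _ _ _).symm
  have h1 : R.eval Q = s g + 2 * (O + E) := by
    rw [eval_eq_sum_range' (Nat.lt_succ_of_le hR), ← hEO]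
    exact sum_sym g s hsym
  have h2 : R.eval (-Q) = (-1) ^ g * (s g + 2 * (E - O)) := by
    have h3 : R.eval (-Q) = ∑ i ∈ range (2 * g + 1), (-1) ^ i * s i := by
      rw [eval_eq_sum_range' (Nat.lt_succ_of_le hR)]
      refine sum_congr rfl fun i _ => ?_
      rw [hs, neg_pow]
      ring
    have h4 : ∑ i ∈ range (2 * g + 1), (-1) ^ i * s i
        = (-1) ^ g * s g + 2 * ∑ i ∈ range g, (-1) ^ i * s i := by
      refine sum_sym g (fun i => (-1) ^ i * s i) fun i hi => ?_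
      change (-1) ^ i * s i = (-1) ^ (2 * g - i) * s (2 * g - i)
      rw [show s i = s (2 * g - i) from hsym i hi]
      congr 1
      rcases Nat.even_or_odd i with h | h
      · have h' : Even (2 * g - i) := by
          rw [Nat.even_sub hi]
          exact ⟨fun _ => h, fun _ => even_two_mul g⟩
        rw [h.neg_one_pow, h'.neg_one_pow]
      · have h' : Odd (2 * g - i) := by
          rw [Nat.odd_sub hi]
          exact ⟨fun h2 => absurd (even_two_mul g) (Nat.not_even_iff_odd.2 h2),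
            fun h2 => absurd h (Nat.not_odd_iff_even.2 h2)⟩
        rw [h.neg_one_pow, h'.neg_one_pow]
    have h5 : ∑ i ∈ range g, (-1 : ℤ) ^ i * s i = (-1) ^ g * (E - O) := by
      rw [← sum_filter_add_sum_filter_not (range g) (fun i => Odd (g - i)), mul_sub, hE, hO,
        mul_sum, mul_sum, sub_eq_add_neg, ← sum_neg_distrib, add_comm]
      congr 1
      · refine sum_congr rfl fun i hi => ?_
        rw [mem_filter, mem_range, Nat.not_odd_iff_even] at hi
        congr 1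
        have h6 : (-1 : ℤ) ^ g = (-1) ^ (g - i) * (-1) ^ i := by
          rw [← pow_add]
          congr 1
          omega
        rw [h6, hi.2.neg_one_pow, one_mul]
      · refine sum_congr rfl fun i hi => ?_
        rw [mem_filter, mem_range] at hi
        have h6 : (-1 : ℤ) ^ g = (-1) ^ (g - i) * (-1) ^ i := by
          rw [← pow_add]
          congr 1
          omega
        rw [h6, hi.2.neg_one_pow]
        ring
    rw [h3, h4, h5]
    ring
  have h6 : (-1) ^ g * (R.eval Q * R.eval (-Q)) = (s g + 2 * E) ^ 2 - 4 * O ^ 2 := by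
    have h7 : ((-1 : ℤ) ^ g) ^ 2 = 1 := by rw [← pow_mul, mul_comm, pow_mul]; norm_num
    rw [h1, h2]
    linear_combination (s g + 2 * (O + E)) * (s g + 2 * (E - O)) * h7
  have h7 : Odd (s g) := by
    rw [h1] at hodd
    by_contra hne
    rw [Int.not_odd_iff_even] at hne
    exact absurd hodd (Int.not_odd_iff_even.2 (hne.add (even_two_mul _)))
  have h8 : O ≡ arf g R [ZMOD 2] := by
    rw [hO, arf, Int.modEq_iff_dvd, ← sum_sub_distrib]
    refine dvd_sum fun i _ => ?_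
    rw [hs]
    have h9 : R.coeff i - R.coeff i * Q ^ i = R.coeff i * (1 - Q ^ i) := by ring
    rw [h9]
    apply Dvd.dvd.mul_left
    exact (Odd.sub_odd odd_one (hQ.pow)).two_dvd
  obtain ⟨u, hu⟩ := h7.add_even (even_two_mul E)
  obtain ⟨v, hv⟩ := (Int.modEq_iff_dvd.1 h8)
  rw [h6, hu, Int.modEq_iff_dvd]
  have hv' : arf g R = O + 2 * v := by linear_combination hv
  rw [hv']
  obtain ⟨w, hw⟩ := Int.even_mul_succ_self u
  obtain ⟨w', hw'⟩ := Int.even_mul_succ_self O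
  refine ⟨v - w + w', ?_⟩
  linear_combination (-4) * hw + 4 * hw'

lemma not_isSquare {D : ℤ} (hD : D % 8 = 5) : ¬ IsSquare (D : ℚ_[2]) := by
  rintro ⟨x, hx⟩
  have h1 : ‖(D : ℚ_[2])‖ = 1 := by
    have h2 : ¬ ‖(D : ℚ_[2])‖ < 1 := by
      rw [Padic.norm_intCast_lt_one_iff]
      omega
    exact le_antisymm (Padic.norm_int_le_one D) (not_lt.1 h2)
  have h2 : ‖x‖ = 1 := by
    rw [hx, norm_mul] at h1
    nlinarith [norm_nonneg x]
  let y : ℤ_[2] := ⟨x, h2.le⟩
  have h3 : (D : ℤ_[2]) = y * y := by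
    apply Subtype.ext
    push_cast
    exact hx
  have h4 := congrArg (PadicInt.toZModPow 3) h3
  rw [map_mul, map_intCast] at h4
  have h5 : ∀ z : ZMod (2 ^ 3), (5 : ZMod (2 ^ 3)) ≠ z * z := by decide
  apply h5 (PadicInt.toZModPow 3 y)
  rw [← h4]
  have h6 : ((D : ℤ) : ZMod 8) = ((5 : ℤ) : ZMod 8) :=
    (ZMod.intCast_eq_intCast_iff D 5 8).2 (by change D % 8 = 5 % 8; rw [hD]; rfl)
  exact h6.symm

/-- Two self-reciprocal polynomials with different parity. -/
theorem not_isSquare_two {R₁ R₂ : ℤ[X]} {g : ℕ} (h₁ : R₁.natDegree ≤ 2 * g)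
    (h₂ : R₂.natDegree ≤ 2 * g) {Q₁ Q₂ : ℤ} (hQ₁ : Odd Q₁) (hQ₂ : Odd Q₂)
    (hs₁ : ∀ i ≤ 2 * g, R₁.coeff i * Q₁ ^ i = R₁.coeff (2 * g - i) * Q₁ ^ (2 * g - i))
    (hs₂ : ∀ i ≤ 2 * g, R₂.coeff i * Q₂ ^ i = R₂.coeff (2 * g - i) * Q₂ ^ (2 * g - i))
    (ho₁ : Odd (R₁.eval Q₁)) (ho₂ : Odd (R₂.eval Q₂)) (hodd : Odd (arf g R₁ + arf g R₂)) :
    ¬ IsSquare (((R₁.eval Q₁ * R₁.eval (-Q₁)) * (R₂.eval Q₂ * R₂.eval (-Q₂)) : ℤ) : ℚ_[2]) := by
  apply not_isSquare
  have e₁ := mod_eight h₁ hQ₁ hs₁ ho₁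
  have e₂ := mod_eight h₂ hQ₂ hs₂ ho₂
  have e := e₁.mul e₂
  have h7 : ((-1 : ℤ) ^ g) * (-1) ^ g = 1 := by
    rw [← pow_add, ← two_mul, pow_mul]; norm_num
  have h8 : (-1) ^ g * (R₁.eval Q₁ * R₁.eval (-Q₁)) * ((-1) ^ g * (R₂.eval Q₂ * R₂.eval (-Q₂)))
      = (R₁.eval Q₁ * R₁.eval (-Q₁)) * (R₂.eval Q₂ * R₂.eval (-Q₂)) := by
    linear_combination ((R₁.eval Q₁ * R₁.eval (-Q₁)) * (R₂.eval Q₂ * R₂.eval (-Q₂))) * h7
  rw [h8] at e
  obtain ⟨w, hw⟩ := hodd
  have h9 : (1 + 4 * arf g R₁) * (1 + 4 * arf g R₂) ≡ 5 [ZMOD 8] := by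
    rw [Int.modEq_iff_dvd]
    have h10 : arf g R₁ = 2 * w + 1 - arf g R₂ := by linear_combination hw
    refine ⟨-(w + 2 * arf g R₁ * arf g R₂), ?_⟩
    linear_combination (-4) * hw
  exact e.trans h9

end Pool.Agent.Y134.Two
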