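import Pool.Agent.Y134.Two.Count

/-!
# The characteristic polynomial of Frobenius on a double covering modulo 2
-/

set_option autoImplicit false

namespace Pool.Agent.Y134.Two

open Polynomial Finset Pool.Agent.W528.HA Pool.Agent.W528.HS Pool.Agent.Y134.Cyc

lemma coeff_zero_of {E : Type} [Field E] [CharZero E] {P : ℤ[X]} {S : Multiset E}
    (hS : P.map (Int.castRingHom E) = (S.map fun x => 1 - C x * X).prod) : P.coeff 0 = 1 := by
  have h4 := congrArg (fun q => Polynomial.coeff q 0) hS
  simp only [coeff_map] at h4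
  have h5 : ((S.map fun x => 1 - C x * X).prod : E[X]).coeff 0 = 1 := by
    rw [coeff_zero_eq_eval_zero, eval_multiset_prod, Multiset.map_map]
    have h6 : (S.map ((eval 0) ∘ fun x => (1 - C x * X : E[X]))) = S.map fun _ => (1 : E) := by
      refine Multiset.map_congr rfl fun x _ => ?_
      simp
    rw [h6]
    simp
  rw [h5, eq_intCast] at h4
  exact_mod_cast h4

lemma odd_cast {q : ℕ} (hq : Odd q) : ((q : ℤ) : ZMod 2) = 1 := by
  rw [Int.cast_natCast]
  obtain ⟨b, hb⟩ := hq
  rw [hb]
  push_cast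
  rw [show (2 : ZMod 2) = 0 from rfl]
  ring

lemma map_lin {q d : ℕ} (hq : Odd q) (P : ℤ[X]) :
    ((1 - C ((q ^ (2 * d) : ℕ) : ℤ) * X) * P).map (Int.castRingHom (ZMod 2))
      = (1 - X) * P.map (Int.castRingHom (ZMod 2)) := by
  have h : (C ((q ^ (2 * d) : ℕ) : ℤ)).map (Int.castRingHom (ZMod 2)) = 1 := by
    rw [map_C, eq_intCast, Nat.cast_pow, Int.cast_pow, odd_cast hq, one_pow, C_1]
  rw [Polynomial.map_mul, Polynomial.map_sub, Polynomial.map_mul, h, Polynomial.map_one, map_X,
    one_mul]

lemma map_lin' {E : Type} [Field E] {q d : ℕ} {P : ℤ[X]} {B : Multiset E}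
    (hB : P.map (Int.castRingHom E) = (B.map fun x => 1 - C x * X).prod) :
    ((1 - C ((q ^ (2 * d) : ℕ) : ℤ) * X) * P).map (Int.castRingHom E)
      = ((((q ^ (2 * d) : ℕ) : E) ::ₘ B).map fun x => 1 - C x * X).prod := by
  rw [Polynomial.map_mul, hB, Multiset.map_cons, Multiset.prod_cons]
  congr 1
  simp

section
variable {K : Type} [Field K] [CharZero K] {E : Type} [Field E] [CharZero E]
  [Algebra K E] {d : ℕ} {κ : Type} [Field κ] [Fintype κ]
  (hκ : Odd (Fintype.card κ)) (F : MvPolynomial (Fin (2 * d + 1)) κ)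
  {V : Type} [AddCommGroup V] [Module K V] [FiniteDimensional K V] (f : Module.End K V)
  (hX : ∀ (L : Type) [Field L] [Fintype L] [Algebra κ L],
    (coverCount F L : K) = ∑ i ∈ range (2 * d + 1), (Fintype.card L) ^ i
      + (Fintype.card L) ^ d * LinearMap.trace K V (f ^ Module.finrank κ L))
  {B : Multiset E}
  (hZ : ∀ (L : Type) [Field L] [Fintype L] [Algebra κ L],
    (branchCount F L : E) = ∑ i ∈ range (2 * d), (Fintype.card L) ^ i
      - (B.map fun x => x ^ Module.finrank κ L).sum)

include hκ hX in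
lemma trace_eq (L : Type) [Field L] [Fintype L] [Algebra κ L] :
    LinearMap.trace E (TensorProduct K E V)
      (((((Fintype.card κ : K) ^ d) • f).baseChange E) ^ Module.finrank κ L)
    = projSum L E (2 ^ 1) (F.map (algebraMap κ L)) (algebraMap κ L (-1)) (-1) := by
  have h1 := cover_eq hκ F E L
  have h2 := congrArg (algebraMap K E) (hX L)
  rw [map_natCast, h1, map_add, map_mul, map_natCast] at h2
  have h3 : ((((Fintype.card κ : K) ^ d) • f).baseChange E) ^ Module.finrank κ L
      = ((((Fintype.card κ : K) ^ d) • f) ^ Module.finrank κ L).baseChange E := by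
    rw [LinearMap.baseChange_pow]
  rw [h3, LinearMap.trace_baseChange, _root_.smul_pow, map_smul, smul_eq_mul, map_mul]
  have h4 : (((Fintype.card κ : K) ^ d) ^ Module.finrank κ L) = (Fintype.card L : K) ^ d := by
    rw [Module.card_eq_pow_finrank (K := κ) (V := L)]
    push_cast
    ring
  rw [h4]
  exact (add_left_cancel h2).symm

omit [CharZero E] in
include hZ in
lemma open_eq' (L : Type) [Field L] [Fintype L] [Algebra κ L] :
    ((projOpen L (F.map (algebraMap κ L)) : ℕ) : E)
      = (((((Fintype.card κ ^ (2 * d) : ℕ) : E)) ::ₘ B).map fun x => x ^ Module.finrank κ L).sum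
        - (((0 : Multiset E).map fun x => x ^ Module.finrank κ L).sum) := by
  have h1 := congrArg (Nat.cast : ℕ → E) (branch_eq F L)
  rw [Nat.cast_add, hZ L, sum_range_succ] at h1
  push_cast at h1
  rw [Multiset.map_zero, Multiset.sum_zero, sub_zero, Multiset.map_cons, Multiset.sum_cons]
  have h2 : ((Fintype.card κ ^ (2 * d) : ℕ) : E) ^ Module.finrank κ L
      = (Fintype.card L : E) ^ (2 * d) := by
    rw [Module.card_eq_pow_finrank (K := κ) (V := L)]
    push_cast
    ring
  rw [h2]
  linear_combination h1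

/-- The characteristic polynomial of Frobenius is integral, and congruent modulo 2 to the numerator
of the zeta function of the branch locus times `1 - T`; version with a linear map over `E`. -/
theorem exists_int_aux [IsAlgClosed E] {W : Type} [AddCommGroup W] [Module E W]
    [FiniteDimensional E W] (Φ : Module.End E W)
    (hΦ : ∀ (L : Type) [Field L] [Fintype L] [Algebra κ L],
      LinearMap.trace E W (Φ ^ Module.finrank κ L)
        = projSum L E (2 ^ 1) (F.map (algebraMap κ L)) (algebraMap κ L (-1)) (-1))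
    (hκ : Odd (Fintype.card κ)) {P : ℤ[X]}
    (hB : P.map (Int.castRingHom E) = (B.map fun x => 1 - C x * X).prod)
    (hZ : ∀ (L : Type) [Field L] [Fintype L] [Algebra κ L],
      (branchCount F L : E) = ∑ i ∈ range (2 * d), (Fintype.card L) ^ i
        - (B.map fun x => x ^ Module.finrank κ L).sum) :
    ∃ A : ℤ[X], A.map (Int.castRingHom E) = Φ.charpoly ∧
    (A.reflect Φ.charpoly.roots.card).map (Int.castRingHom (ZMod 2))
      = (1 - X) * P.map (Int.castRingHom (ZMod 2)) := by
  classical
  have hz := neg_one_prim hκ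
  have hμ : IsPrimitiveRoot (-1 : E) (2 ^ 1) := by
    rw [pow_one]
    exact IsPrimitiveRoot.neg_one 0 (by norm_num)
  have hi := integral_of_poly (coeff_zero_of hB) hB
  have hi' : ∀ x ∈ (((Fintype.card κ ^ (2 * d) : ℕ) : E) ::ₘ B), IsIntegral ℤ x := by
    intro x hx
    rcases Multiset.mem_cons.1 hx with rfl | hx
    · exact isIntegral_natCast _
    · exact hi x hx
  have hev : Even (2 * d) := even_two_mul d
  obtain ⟨k, _, _, θ, A', B₁', B₂', hA', hB₁', hB₂', h1, -⟩ := Pool.Agent.W528.HS.congr
    Pool.Agent.W715.HS.OC.main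
    Pool.Agent.W326.HS.EI.main Pool.Agent.W111.HS.EC.main Pool.Agent.W63.HS.TR.main
    Pool.Agent.W804.HS.RD.main Nat.prime_two κ hz F hμ
    (((Fintype.card κ ^ (2 * d) : ℕ) : E) ::ₘ B) 0 hi' (by simp)
    (fun L _ _ _ => open_eq' F hZ L) Φ (by
      intro L _ _ _
      rw [hev.neg_one_pow, one_mul, hΦ L])
  have h1 := h1 hev
  have hB₂0 : B₂' = 0 := Multiset.map_eq_zero.1 hB₂'
  rw [hB₂0, Multiset.map_zero, Multiset.prod_zero, mul_one,
    red_prod (map_lin' (q := Fintype.card κ) (d := d) hB) hB₁' θ] at h1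
  -- the integral polynomial
  obtain ⟨a, ha⟩ := Pool.Agent.W715.HS.OC.main κ (2 ^ 1) (-1) (by norm_num) hz (2 * d + 1) F
  have hS : ∀ m, 1 ≤ m → orbSum (2 ^ 1) (-1 : E) a m = (Φ.charpoly.roots.map fun x => x ^ m).sum := by
    intro m hm
    obtain ⟨L, _, _, _, hL⟩ := exists_ext κ m hm
    have h2 := (ha L).1 E (-1) hμ.pow_eq_one
    rw [hL] at h2
    have h3 := hΦ L
    rw [hL] at h3
    rw [← h2, ← h3, Pool.Agent.W63.HS.TR.main E _ Φ m]
  obtain ⟨G, hG⟩ := exists_lift (2 ^ 1) (-1 : E) a Φ.charpoly.roots hS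
  have hroots : (Φ.charpoly.roots.map fun x => X - C x).prod = Φ.charpoly :=
    ((IsAlgClosed.splits Φ.charpoly).eq_prod_roots_of_monic (LinearMap.charpoly_monic Φ)).symm
  have hev1 : (Int.castRingHom E).comp (evalRingHom (-1 : ℤ)) = ev (-1 : E) := by
    apply RingHom.ext
    intro g
    rw [RingHom.comp_apply, coe_evalRingHom, ev_apply, aeval_def, eval₂_eq_eval_map]
    have := eval_intCast_map (Int.castRingHom E) g (-1)
    rw [Int.cast_neg, Int.cast_one] at this
    exact this.symm
  refine ⟨G.map (evalRingHom (-1 : ℤ)), ?_, ?_⟩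
  · rw [← hroots, ← hG, Polynomial.map_map, hev1]
  · have hAE : (G.map (evalRingHom (-1 : ℤ))).map (Int.castRingHom E) = Φ.charpoly := by
      rw [← hroots, ← hG, Polynomial.map_map, hev1]
    have hrefl : ((G.map (evalRingHom (-1 : ℤ))).reflect Φ.charpoly.roots.card).map
        (Int.castRingHom E) = (Φ.charpoly.roots.map fun x => 1 - C x * X).prod := by
      have h9 := reflect_prod Φ.charpoly.roots
      rw [hroots] at h9
      rw [← reflect_map, hAE]
      calc reflect Φ.charpoly.roots.card Φ.charpoly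
          = reflect Φ.charpoly.roots.card (reflect Φ.charpoly.roots.card
            (Φ.charpoly.roots.map fun x => 1 - C x * X).prod) := by rw [h9]
        _ = _ := reflect_reflect
    rw [red_prod hrefl hA' θ] at h1
    let ι : ZMod 2 →+* k := ZMod.castHom (dvd_refl 2) k
    have hι : ∀ P : ℤ[X], (P.map (Int.castRingHom (ZMod 2))).map ι = P.map (Int.castRingHom k) := by
      intro P
      rw [Polynomial.map_map]
      congr 1
      exact RingHom.ext_int _ _
    apply Polynomial.map_injective ι ι.injective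
    rw [hι, h1, ← hι, map_lin hκ]

end

end Pool.Agent.Y134.Two
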